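import Mathlib

/-!
# TA-Ryser: Ryser's formula for the permanent

Expand `∏_i ∑_{l ∈ S} A i l = ∑_{κ : Fin m → Fin m, κ i ∈ S ∀ i} ∏_i A i (κ i)` (`Finset.prod_univ_sum`, `Fintype.piFinset`), exchange the sums:
the coefficient of `∏_i A i (κ i)` is `∑_{S ⊇ image κ} (-1)^(m - |S|)`, which is `1` if `image κ = univ` (i.e. `κ` is a
permutation) and `0` otherwise (`Finset.sum_powerset_neg_one_pow_card`-type lemmas).  `polar` is the case of equal rows.
-/

set_option autoImplicit false

open Finset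

namespace Helper87.TA

theorem ryser_coef {R : Type*} [CommRing R] {m : ℕ} (U : Finset (Fin m)) :
    ∑ S : Finset (Fin m), (if U ⊆ S then ((-1 : R)) ^ (m - S.card) else 0) = if U = univ then 1 else 0 := by
  have h1 : ∑ S : Finset (Fin m), (if U ⊆ S then ((-1 : R)) ^ (m - S.card) else 0) =
      ∑ S ∈ (Uᶜ).powerset, (-1 : R) ^ S.card := by
    rw [← Finset.sum_filter]
    refine Finset.sum_bij' (fun S _ => Sᶜ) (fun S _ => Sᶜ) ?_ ?_ ?_ ?_ ?_
    · intro S hS
      rw [mem_filter] at hS
      rw [mem_powerset]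
      exact compl_subset_compl.2 hS.2
    · intro S hS
      rw [mem_powerset] at hS
      rw [mem_filter]
      refine ⟨mem_univ _, ?_⟩
      rw [subset_compl_comm]
      exact hS
    · intro S _
      exact compl_compl S
    · intro S _
      exact compl_compl S
    · intro S _
      rw [card_compl, Fintype.card_fin]
  have h2 := Finset.sum_powerset_neg_one_pow_card (x := Uᶜ)
  have h3 : ((∑ S ∈ (Uᶜ).powerset, (-1 : ℤ) ^ S.card : ℤ) : R) = ∑ S ∈ (Uᶜ).powerset, (-1 : R) ^ S.card := by
    push_cast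
    rfl
  rw [h1, ← h3, h2]
  by_cases h : U = univ
  · simp [h]
  · have h4 : Uᶜ ≠ ∅ := fun h5 => h (by rw [← compl_compl U, h5, compl_empty])
    simp [h, h4]

theorem ryser {R : Type*} [CommRing R] {m : ℕ} (A : Fin m → Fin m → R) :
    ∑ σ : Equiv.Perm (Fin m), ∏ i, A i (σ i) =
      ∑ S : Finset (Fin m), (-1) ^ (m - S.card) * ∏ i, ∑ l ∈ S, A i l := by
  have h1 : ∀ S : Finset (Fin m), (-1 : R) ^ (m - S.card) * ∏ i, ∑ l ∈ S, A i l =
      ∑ κ : Fin m → Fin m, (if univ.image κ ⊆ S then (-1 : R) ^ (m - S.card) else 0) * ∏ i, A i (κ i) := by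
    intro S
    rw [Finset.prod_univ_sum, Finset.mul_sum]
    rw [← Finset.sum_filter_add_sum_filter_not univ (fun κ : Fin m → Fin m => univ.image κ ⊆ S)]
    have h2 : ∑ κ ∈ univ.filter (fun κ : Fin m → Fin m => ¬ univ.image κ ⊆ S),
        (if univ.image κ ⊆ S then (-1 : R) ^ (m - S.card) else 0) * ∏ i, A i (κ i) = 0 := by
      refine Finset.sum_eq_zero fun κ hκ => ?_
      rw [if_neg (mem_filter.1 hκ).2, zero_mul]
    rw [h2, add_zero]
    refine Finset.sum_congr ?_ ?_
    · ext κ
      rw [Fintype.mem_piFinset, mem_filter]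
      constructor
      · intro h
        refine ⟨mem_univ _, ?_⟩
        intro x hx
        obtain ⟨i, _, hi⟩ := mem_image.1 hx
        rw [← hi]
        exact h i
      · intro h i
        exact h.2 (mem_image_of_mem κ (mem_univ i))
    · intro κ hκ
      rw [if_pos (mem_filter.1 hκ).2]
  rw [Finset.sum_congr rfl fun S _ => h1 S, Finset.sum_comm]
  have h3 : ∀ κ : Fin m → Fin m, ∑ S : Finset (Fin m),
      (if univ.image κ ⊆ S then (-1 : R) ^ (m - S.card) else 0) * ∏ i, A i (κ i) =
      if univ.image κ = univ then ∏ i, A i (κ i) else 0 := by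
    intro κ
    rw [← Finset.sum_mul, ryser_coef]
    split_ifs
    · rw [one_mul]
    · rw [zero_mul]
  rw [Finset.sum_congr rfl fun κ _ => h3 κ, ← Finset.sum_filter]
  refine Finset.sum_bij (fun σ _ => (σ : Fin m → Fin m)) ?_ ?_ ?_ ?_
  · intro σ _
    rw [mem_filter]
    exact ⟨mem_univ _, Finset.image_univ_equiv σ⟩
  · intro σ _ τ _ h
    exact DFunLike.coe_injective h
  · intro κ hκ
    have h4 : Function.Surjective κ := by
      intro y
      have h5 : y ∈ univ.image κ := by
        rw [(mem_filter.1 hκ).2]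
        exact mem_univ y
      obtain ⟨i, _, hi⟩ := mem_image.1 h5
      exact ⟨i, hi⟩
    refine ⟨Equiv.ofBijective κ (Finite.injective_iff_surjective.2 h4 |> fun h => ⟨h, h4⟩), mem_univ _, rfl⟩
  · intro σ _
    rfl

/-- polarization: the product of `d` elements from the `d`-th powers of sums -/
theorem polar {R : Type*} [CommRing R] {d : ℕ} (x : Fin d → R) :
    (d.factorial : R) * ∏ l, x l = ∑ S : Finset (Fin d), (-1) ^ (d - S.card) * (∑ l ∈ S, x l) ^ d := by
  have h := ryser (fun _ : Fin d => x)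
  have h1 : ∀ σ : Equiv.Perm (Fin d), ∏ i, x (σ i) = ∏ l, x l := fun σ => Equiv.prod_comp σ x
  rw [Finset.sum_congr rfl fun σ _ => h1 σ] at h
  rw [Finset.sum_const, card_univ, Fintype.card_perm, Fintype.card_fin, nsmul_eq_mul] at h
  rw [h]
  refine Finset.sum_congr rfl fun S _ => ?_
  rw [Finset.prod_const, card_univ, Fintype.card_fin]

end Helper87.TA
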