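import Mathlib

/-!
# TA-Interp: coefficients from values

Vandermonde: take `n = natDegree p` and the points `0, 1, ..., n`; every coefficient of `p` is a rational linear
combination of the values `p(t)`, `t = 0, ..., n` (invert the rational Vandermonde matrix `Matrix.vandermonde`, or use
`Lagrange`, or induction on the degree with divided differences `p.eval (t) - p.eval 0`).
-/

set_option autoImplicit false

open Finset

namespace Helper87.TA

theorem interp {R : Type*} [CommRing R] [Algebra ℚ R] (W : Submodule ℚ R) (p : Polynomial R)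
    (h : ∀ t : ℚ, p.eval (algebraMap ℚ R t) ∈ W) (k : ℕ) : p.coeff k ∈ W := by
  classical
  by_cases hk : p.natDegree < k
  · rw [Polynomial.coeff_eq_zero_of_natDegree_lt hk]
    exact W.zero_mem
  have hk' : k < p.natDegree + 1 := by omega
  let v : Fin (p.natDegree + 1) → ℚ := fun i => (i : ℕ)
  have hv : Function.Injective v := by
    intro i j hij
    have h1 : ((i : ℕ) : ℚ) = ((j : ℕ) : ℚ) := hij
    exact Fin.ext (by exact_mod_cast h1)
  have hdet : IsUnit (Matrix.vandermonde v).det := by
    rw [isUnit_iff_ne_zero]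
    exact Matrix.det_vandermonde_ne_zero_iff.2 hv
  have hM : (Matrix.vandermonde v)⁻¹ * Matrix.vandermonde v = 1 := Matrix.nonsing_inv_mul _ hdet
  have key : p.coeff k = ∑ i, (Matrix.vandermonde v)⁻¹ ⟨k, hk'⟩ i •
      p.eval (algebraMap ℚ R (v i)) := by
    have h1 : ∀ i, p.eval (algebraMap ℚ R (v i)) =
        ∑ j : Fin (p.natDegree + 1), (Matrix.vandermonde v i j) • p.coeff j := by
      intro i
      rw [Polynomial.eval_eq_sum_range, Finset.sum_range]
      refine Finset.sum_congr rfl fun j _ => ?_
      rw [Matrix.vandermonde_apply, ← map_pow, mul_comm, ← Algebra.smul_def]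
    simp only [h1, Finset.smul_sum, smul_smul]
    rw [Finset.sum_comm]
    simp only [← Finset.sum_smul]
    have h2 : ∀ j, ∑ i, (Matrix.vandermonde v)⁻¹ ⟨k, hk'⟩ i * Matrix.vandermonde v i j =
        (1 : Matrix (Fin (p.natDegree + 1)) (Fin (p.natDegree + 1)) ℚ) ⟨k, hk'⟩ j := by
      intro j
      rw [← hM, Matrix.mul_apply]
    simp only [h2, Matrix.one_apply]
    rw [Finset.sum_eq_single (⟨k, hk'⟩ : Fin (p.natDegree + 1))]
    · rw [if_pos rfl, one_smul]
    · intro j _ hj
      rw [if_neg (Ne.symm hj), zero_smul]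
    · intro h; exact absurd (Finset.mem_univ _) h
  rw [key]
  exact W.sum_mem fun i _ => W.smul_mem _ (h _)

end Helper87.TA
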