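import Mathlib

/-!
# TA-Newton: Newton's identities in a filtered algebra

`B` is a subspace with `1 ∈ B`, so `B^j ≤ B^k` for `j ≤ k`.  Mathlib: `MvPolynomial.mul_esymm_eq_sum`
(`k e_k = (-1)^(k+1) ∑_{a + b = k, a < k} (-1)^a e_a p_b`) and `MvPolynomial.psum_eq_mul_esymm_sub_sum` (`p_k` in terms of `e_k` and the
smaller ones); apply `MvPolynomial.aeval x`.  Strong induction on `k`.  In `psum_mem` and `esymm_mem` the filtration is
`k ↦ B^(s k)` (in `psum_mem` only `s = 1` is needed).
-/

set_option autoImplicit false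

open MvPolynomial Finset

namespace Helper87.TA

theorem newton_pow_le {K : Type*} [CommRing K] [Algebra ℚ K] (B : Submodule ℚ K) (h1 : (1 : K) ∈ B)
    {j k : ℕ} (hjk : j ≤ k) : B ^ j ≤ B ^ k := by
  have h1' : (1 : Submodule ℚ K) ≤ B := Submodule.one_le.mpr h1
  obtain ⟨c, rfl⟩ := Nat.exists_eq_add_of_le hjk
  rw [pow_add]
  calc B ^ j = B ^ j * 1 := (mul_one _).symm
    _ ≤ B ^ j * B ^ c := by
        refine mul_le_mul_right ?_ _
        rw [← one_pow c]
        exact pow_le_pow_left' h1' c

theorem newton_sign_mul {K : Type*} [CommRing K] [Algebra ℚ K] (B : Submodule ℚ K) (n : ℕ) {y : K}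
    (hy : y ∈ B) : (-1 : K) ^ n * y ∈ B := by
  rcases neg_one_pow_eq_or K n with h | h
  · rw [h, one_mul]
    exact hy
  · rw [h, neg_one_mul]
    exact B.neg_mem hy

theorem psum_mem {K : Type*} [CommRing K] [Algebra ℚ K] (B : Submodule ℚ K) (h1 : (1 : K) ∈ B) {m : ℕ}
    (x : Fin m → K) (h : ∀ k, aeval x (esymm (Fin m) ℚ k) ∈ B) (d : ℕ) (hd : 1 ≤ d) :
    ∑ i, x i ^ d ∈ B ^ d := by
  have key : ∀ d : ℕ, 1 ≤ d → aeval x (psum (Fin m) ℚ d) ∈ B ^ d := by
    intro d
    induction d using Nat.strong_induction_on with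
    | _ d ih =>
      intro hd
      rw [psum_eq_mul_esymm_sub_sum (Fin m) ℚ d hd, map_sub, map_sum]
      refine Submodule.sub_mem _ ?_ (Submodule.sum_mem _ ?_)
      · rw [map_mul, map_mul, map_pow, map_neg, map_one, mul_assoc]
        refine newton_sign_mul _ _ ?_
        rw [map_natCast, ← nsmul_eq_mul]
        refine Submodule.smul_of_tower_mem _ _ ?_
        refine newton_pow_le B h1 hd ?_
        rw [pow_one]
        exact h d
      · intro a ha
        obtain ⟨ha1, ha2⟩ := Finset.mem_filter.mp ha
        have ha1 := Finset.HasAntidiagonal.mem_antidiagonal.mp ha1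
        have ha3 : 0 < a.1 := ha2.1
        have ha4 : a.1 < d := ha2.2
        rw [map_mul, map_mul, map_pow, map_neg, map_one, mul_assoc]
        refine newton_sign_mul _ _ ?_
        refine newton_pow_le B h1 (show 1 + a.2 ≤ d by omega) ?_
        rw [pow_add, pow_one]
        exact Submodule.mul_mem_mul (h a.1) (ih a.2 (by omega) (by omega))
  have := key d hd
  rw [psum, map_sum] at this
  simpa using this

theorem esymm_mem {K : Type*} [CommRing K] [Algebra ℚ K] (B : Submodule ℚ K) (h1 : (1 : K) ∈ B) {m : ℕ}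
    (s : ℕ) (x : Fin m → K) (h : ∀ d, 1 ≤ d → ∑ i, x i ^ d ∈ B ^ (s * d)) :
    ∏ i, x i ∈ B ^ (s * m) := by
  have key : ∀ k : ℕ, aeval x (esymm (Fin m) ℚ k) ∈ B ^ (s * k) := by
    intro k
    induction k using Nat.strong_induction_on with
    | _ k ih =>
      rcases Nat.eq_zero_or_pos k with hk | hk
      · subst hk
        rw [esymm_zero, map_one, mul_zero, pow_zero]
        exact Submodule.one_le.mp le_rfl
      · have hmem : aeval x ((k : MvPolynomial (Fin m) ℚ) * esymm (Fin m) ℚ k) ∈ B ^ (s * k) := by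
          rw [mul_esymm_eq_sum (Fin m) ℚ k, map_mul, map_pow, map_neg, map_one, map_sum]
          refine newton_sign_mul _ _ (Submodule.sum_mem _ ?_)
          intro a ha
          obtain ⟨ha1, ha2⟩ := Finset.mem_filter.mp ha
          have ha1 := Finset.HasAntidiagonal.mem_antidiagonal.mp ha1
          rw [map_mul, map_mul, map_pow, map_neg, map_one, mul_assoc]
          refine newton_sign_mul _ _ ?_
          have hsk : s * k = s * a.1 + s * a.2 := by rw [← mul_add, ha1]
          rw [hsk, pow_add]
          refine Submodule.mul_mem_mul (ih a.1 ha2) ?_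
          have := h a.2 (by omega)
          rw [psum, map_sum]
          simpa using this
        have heq : aeval x (esymm (Fin m) ℚ k) =
            ((k : ℚ)⁻¹) • aeval x ((k : MvPolynomial (Fin m) ℚ) * esymm (Fin m) ℚ k) := by
          rw [map_mul, map_natCast, ← nsmul_eq_mul, ← Nat.cast_smul_eq_nsmul ℚ, smul_smul,
            inv_mul_cancel₀ (by exact_mod_cast hk.ne'), one_smul]
        rw [heq]
        exact Submodule.smul_mem _ _ hmem
  have := key m
  rw [esymm, map_sum] at this
  have hcard : powersetCard m (univ : Finset (Fin m)) = {univ} := by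
    have := Finset.powersetCard_self (univ : Finset (Fin m))
    rwa [Finset.card_univ, Fintype.card_fin] at this
  rw [hcard, Finset.sum_singleton, map_prod] at this
  simpa using this

end Helper87.TA
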