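import Mathlib
import Pool.Agent.Helper87.TA.Defs
import Pool.Agent.Helper87.TA.St.Interp
import Pool.Agent.Helper87.TA.St.Ryser
import Pool.Agent.Helper87.TA.St.Newton

/-!
# TA-Loc: norms of forms after multiplication by a power of a norm

Let `K` be the fraction field of `R = MvPolynomial (Fin m × Fin r) ℚ` (`FractionRing R`), `q ≠ 0`, `Q = nm m q ≠ 0` in `K`,
`u i w = lin w i / lin q i ∈ K`, and `B = {x / Q : x ∈ A1 m r}` (a subspace of `K`: `Submodule.map` of `A1` under `R → K` followed by multiplication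
by `Q⁻¹`); `1 = nm q / Q ∈ B`.
* `∏_i (1 + t u i w) = nm m (q + t w) / Q ∈ B` for all rational `t`; so the elementary symmetric functions of `u · w` are in `B` (`interp`,
  `Finset.prod_one_add..`/`MvPolynomial` esymm as coefficients of `∏ (1 + T x_i)`, e.g. `Finset.prod_X_add_C_coeff`, `Multiset.prod_X_add_C_coeff`).
* `psum_mem`: `∑_i (u i w)^d ∈ B^d` for `d ≥ 1`, all `w`.  `polar` with `x l = u i (w l)`, summed over `i`, and linearity of `u i`:
  `∑_i ∏_{l : Fin d} u i (w l) ∈ B^d`.
* So `∑_i evr r i g / (lin q i)^d ∈ B^d` for `g` homogeneous of degree `d ≥ 1` (a monomial of degree `d` is a product of `d` variables).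
* `g` homogeneous of degree `k`: `x i = evr r i g / (lin q i)^k`; `x i ^ v` belongs to `g^v`, degree `k v`, so `esymm_mem` with `s = k` gives
  `NN m g / Q^k = ∏ x i ∈ B^(k m)` (for `k = 0`, `g` is a constant: trivial; also `m = 0` is trivial).
* Multiply by `Q^(k m)`: `Q^(k (m - 1)) NN m g ∈ (image of A1 m r ^ (k m))`, and `R → K` is injective.
-/

set_option autoImplicit false

open MvPolynomial Finset

namespace Helper87.TA

section loc_aux

variable {m r : ℕ} {K : Type*} [Field K] [Algebra ℚ K]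
  (ι : MvPolynomial (Fin m × Fin r) ℚ →ₐ[ℚ] K) (q : Fin r → ℚ)

/-- the quotient of two linear forms at the `i`-th point -/
noncomputable def loc_u (i : Fin m) (w : Fin r → ℚ) : K := ι (lin w i) / ι (lin q i)

/-- elements whose product with the norm is in the image of `A1` -/
noncomputable def loc_B : Submodule ℚ K :=
  ((A1 m r).map ι.toLinearMap).comap (LinearMap.mulLeft ℚ (ι (nm m q)))

theorem loc_mem_B {x : K} : x ∈ loc_B ι q ↔ ι (nm m q) * x ∈ (A1 m r).map ι.toLinearMap := Iff.rfl

theorem loc_lin_add (w w' : Fin r → ℚ) (i : Fin m) : lin (w + w') i = lin w i + lin w' i := by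
  unfold lin
  rw [← Finset.sum_add_distrib]
  refine Finset.sum_congr rfl fun j _ => ?_
  rw [Pi.add_apply, map_add, add_mul]

theorem loc_lin_smul (t : ℚ) (w : Fin r → ℚ) (i : Fin m) : lin (t • w) i = C t * lin w i := by
  unfold lin
  rw [Finset.mul_sum]
  refine Finset.sum_congr rfl fun j _ => ?_
  rw [Pi.smul_apply, smul_eq_mul, map_mul, mul_assoc]

theorem loc_lin_sum {α : Type*} (S : Finset α) (w : α → Fin r → ℚ) (i : Fin m) :
    lin (∑ l ∈ S, w l) i = ∑ l ∈ S, lin (w l) i := by
  classical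
  induction S using Finset.induction_on with
  | empty =>
    simp [lin]
  | insert a S ha ih =>
    rw [Finset.sum_insert ha, Finset.sum_insert ha, loc_lin_add, ih]

theorem loc_lin_single (j : Fin r) (i : Fin m) : lin (Pi.single j 1) i = X (i, j) := by
  unfold lin
  rw [Finset.sum_eq_single j]
  · rw [Pi.single_eq_same, map_one, one_mul]
  · intro b _ hb
    rw [Pi.single_eq_of_ne hb, map_zero, zero_mul]
  · intro h
    exact absurd (Finset.mem_univ j) h

theorem loc_lin_ne_zero {q : Fin r → ℚ} (hq : q ≠ 0) (i : Fin m) : lin q i ≠ 0 := by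
  obtain ⟨j, hj⟩ := Function.ne_iff.mp hq
  intro h
  have h1 := congrArg (eval fun p : Fin m × Fin r => if p = (i, j) then (1 : ℚ) else 0) h
  rw [lin, map_sum, map_zero, Finset.sum_eq_single j] at h1
  · rw [map_mul, eval_C, eval_X, if_pos rfl, mul_one] at h1
    exact hj h1
  · intro b _ hb
    rw [map_mul, eval_C, eval_X, if_neg, mul_zero]
    intro h2
    exact hb (Prod.mk.inj h2).2
  · intro h2
    exact absurd (Finset.mem_univ j) h2

theorem loc_ca (t : ℚ) : ι (C t) = algebraMap ℚ K t := by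
  rw [← MvPolynomial.algebraMap_eq]
  exact ι.commutes t

theorem loc_one_mem : (1 : K) ∈ loc_B ι q := by
  rw [loc_mem_B, mul_one]
  exact ⟨nm m q, Submodule.subset_span ⟨q, rfl⟩, rfl⟩

variable {q}

theorem loc_Q (hq : ∀ i, ι (lin q i) ≠ 0) : ι (nm m q) ≠ 0 := by
  unfold nm
  rw [map_prod]
  exact Finset.prod_ne_zero_iff.mpr fun i _ => hq i

theorem loc_prod_mem (hq : ∀ i, ι (lin q i) ≠ 0) (w : Fin r → ℚ) (t : ℚ) :
    ∏ i, (1 + algebraMap ℚ K t * loc_u ι q i w) ∈ loc_B ι q := by
  rw [loc_mem_B]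
  refine ⟨nm m (q + t • w), Submodule.subset_span ⟨q + t • w, rfl⟩, ?_⟩
  change ι (nm m (q + t • w)) = _
  unfold nm
  rw [map_prod, map_prod, ← Finset.prod_mul_distrib]
  refine Finset.prod_congr rfl fun i _ => ?_
  rw [loc_lin_add, loc_lin_smul, map_add, map_mul, loc_ca]
  unfold loc_u
  have := hq i
  field_simp

theorem loc_esymm (hq : ∀ i, ι (lin q i) ≠ 0) (w : Fin r → ℚ) (k : ℕ) :
    aeval (fun i => loc_u ι q i w) (esymm (Fin m) ℚ k) ∈ loc_B ι q := by
  have h1 := interp (loc_B ι q) (∏ i, (1 + Polynomial.X * Polynomial.C (loc_u ι q i w))) (fun t => by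
    rw [Polynomial.eval_prod]
    have h2 := loc_prod_mem ι hq w t
    have h3 : ∏ i, (1 + algebraMap ℚ K t * loc_u ι q i w) =
        ∏ i, Polynomial.eval (algebraMap ℚ K t)
          (1 + Polynomial.X * Polynomial.C (loc_u ι q i w)) := by
      refine Finset.prod_congr rfl fun i _ => ?_
      rw [Polynomial.eval_add, Polynomial.eval_one, Polynomial.eval_mul, Polynomial.eval_X,
        Polynomial.eval_C]
    rw [← h3]
    exact h2) k
  have h4 : (∏ i, (1 + Polynomial.X * Polynomial.C (loc_u ι q i w))).coeff k =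
      aeval (fun i => loc_u ι q i w) (esymm (Fin m) ℚ k) := by
    rw [Finset.prod_one_add, esymm, map_sum, Polynomial.finset_sum_coeff, Finset.powersetCard_eq_filter,
      Finset.sum_filter]
    refine Finset.sum_congr rfl fun S _ => ?_
    have h7 : aeval (fun i => loc_u ι q i w) (∏ i ∈ S, (X i : MvPolynomial (Fin m) ℚ)) =
        ∏ i ∈ S, loc_u ι q i w := by
      rw [map_prod]
      exact Finset.prod_congr rfl fun i _ => aeval_X _ _
    rw [h7, Finset.prod_mul_distrib, Finset.prod_const, ← map_prod, Polynomial.coeff_X_pow_mul']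
    by_cases h5 : S.card = k
    · rw [if_pos h5.le, if_pos h5, h5, Nat.sub_self, Polynomial.coeff_C_zero]
    · rw [if_neg h5]
      split_ifs with h6
      · rw [Polynomial.coeff_C_ne_zero]
        omega
      · rfl
  rwa [h4] at h1

theorem loc_u_sum {α : Type*} (S : Finset α) (w : α → Fin r → ℚ) (i : Fin m) :
    loc_u ι q i (∑ l ∈ S, w l) = ∑ l ∈ S, loc_u ι q i (w l) := by
  unfold loc_u
  rw [loc_lin_sum, map_sum, Finset.sum_div]

theorem loc_prod_sum (hq : ∀ i, ι (lin q i) ≠ 0) (d : ℕ) (w : Fin d → Fin r → ℚ) :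
    ∑ i, ∏ l, loc_u ι q i (w l) ∈ loc_B ι q ^ d := by
  rcases Nat.eq_zero_or_pos d with rfl | hd
  · rw [pow_zero, Submodule.mem_one]
    refine ⟨(m : ℚ), ?_⟩
    simp
  · have h1 : ∀ v : Fin r → ℚ, ∑ i, loc_u ι q i v ^ d ∈ loc_B ι q ^ d := fun v =>
      psum_mem (loc_B ι q) (loc_one_mem ι q) _ (loc_esymm ι hq v) d hd
    have h2 : (d.factorial : K) * ∑ i, ∏ l, loc_u ι q i (w l) =
        ∑ S : Finset (Fin d), (-1) ^ (d - S.card) * ∑ i, loc_u ι q i (∑ l ∈ S, w l) ^ d := by
      rw [Finset.mul_sum]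
      simp_rw [Finset.mul_sum]
      rw [Finset.sum_comm]
      refine Finset.sum_congr rfl fun i _ => ?_
      rw [polar]
      refine Finset.sum_congr rfl fun S _ => ?_
      rw [loc_u_sum]
    have h3 : (d.factorial : K) * ∑ i, ∏ l, loc_u ι q i (w l) ∈ loc_B ι q ^ d := by
      rw [h2]
      refine Submodule.sum_mem _ fun S _ => ?_
      exact newton_sign_mul _ _ (h1 _)
    have h4 : ∑ i, ∏ l, loc_u ι q i (w l) =
        ((d.factorial : ℚ)⁻¹) • ((d.factorial : K) * ∑ i, ∏ l, loc_u ι q i (w l)) := by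
      rw [← nsmul_eq_mul, ← Nat.cast_smul_eq_nsmul ℚ, smul_smul,
        inv_mul_cancel₀ (by exact_mod_cast d.factorial_ne_zero), one_smul]
    rw [h4]
    exact Submodule.smul_mem _ _ h3

theorem loc_multiset (hq : ∀ i, ι (lin q i) ≠ 0) (s : Multiset (Fin r)) :
    ∑ i, (s.map fun j => loc_u ι q i (Pi.single j 1)).prod ∈ loc_B ι q ^ (Multiset.card s) := by
  obtain ⟨L, rfl⟩ := Quot.exists_rep s
  change ∑ i, Multiset.prod (Multiset.map (fun j => loc_u ι q i (Pi.single j 1))
    (L : Multiset (Fin r))) ∈ loc_B ι q ^ (Multiset.card (L : Multiset (Fin r)))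
  have h1 := loc_prod_sum ι hq L.length (fun l => Pi.single (L.get l) 1)
  have h2 : ∀ i, ∏ l : Fin L.length, loc_u ι q i (Pi.single (L.get l) 1) =
      Multiset.prod (Multiset.map (fun j => loc_u ι q i (Pi.single j 1)) (L : Multiset (Fin r))) := by
    intro i
    rw [Multiset.map_coe, Multiset.prod_coe]
    exact Fin.prod_univ_fun_getElem L (fun j => loc_u ι q i (Pi.single j 1))
  rw [Finset.sum_congr rfl fun i _ => h2 i] at h1
  rw [Multiset.coe_card]
  exact h1

theorem loc_form (hq : ∀ i, ι (lin q i) ≠ 0) (d : ℕ) (g : MvPolynomial (Fin r) ℚ)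
    (hg : g.IsHomogeneous d) :
    ∑ i, ι (evr r i g) / ι (lin q i) ^ d ∈ loc_B ι q ^ d := by
  have h1 : ∀ i : Fin m, ι (evr r i g) / ι (lin q i) ^ d =
      ∑ e ∈ g.support, algebraMap ℚ K (coeff e g) *
        ((Finsupp.toMultiset e).map fun j => loc_u ι q i (Pi.single j 1)).prod := by
    intro i
    conv_lhs => rw [g.as_sum]
    rw [map_sum, map_sum, Finset.sum_div]
    refine Finset.sum_congr rfl fun e he => ?_
    have hd : e.degree = d := by
      rw [Finsupp.degree_eq_weight_one]
      exact hg (by simpa using he)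
    have h2 : ((Finsupp.toMultiset e).map fun j => loc_u ι q i (Pi.single j 1)).prod =
        ∏ j, loc_u ι q i (Pi.single j 1) ^ e j := by
      rw [Finsupp.toMultiset_map, Finsupp.prod_toMultiset, Finsupp.prod_mapDomain_index
        (by intro b; exact pow_zero b) (by intro b k l; exact pow_add b k l), Finsupp.prod_fintype]
      intro j
      exact pow_zero _
    rw [h2, monomial_eq, map_mul, map_mul, Finsupp.prod_fintype _ _ (by intro j; exact pow_zero _),
      map_prod, map_prod]
    have h3 : evr r i (C (coeff e g)) = C (coeff e g) := by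
      unfold evr
      rw [rename_C]
    rw [h3, loc_ca, mul_div_assoc]
    congr 1
    have h4 : ι (lin q i) ^ d = ∏ j, ι (lin q i) ^ e j := by
      rw [Finset.prod_pow_eq_pow_sum, ← hd, Finsupp.degree_eq_sum]
    rw [h4, ← Finset.prod_div_distrib]
    refine Finset.prod_congr rfl fun j _ => ?_
    rw [loc_u, loc_lin_single, div_pow, map_pow, map_pow]
    congr 3
    unfold evr
    rw [rename_X]
  rw [Finset.sum_congr rfl fun i _ => h1 i, Finset.sum_comm]
  refine Submodule.sum_mem _ fun e he => ?_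
  have h5 := loc_multiset ι hq (Finsupp.toMultiset e)
  have hd : e.degree = d := by
    rw [Finsupp.degree_eq_weight_one]
    exact hg (by simpa using he)
  rw [Finsupp.card_toMultiset] at h5
  have h6 : (e.sum fun _ => id) = d := by
    rw [← hd]
    rfl
  rw [h6] at h5
  have h7 := Submodule.smul_mem _ (coeff e g) h5
  rw [Algebra.smul_def, Finset.mul_sum] at h7
  exact h7

theorem loc_norm (hq : ∀ i, ι (lin q i) ≠ 0) (k : ℕ) (g : MvPolynomial (Fin r) ℚ)
    (hg : g.IsHomogeneous k) : ι (NN m g) / ι (nm m q) ^ k ∈ loc_B ι q ^ (k * m) := by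
  have h1 := esymm_mem (loc_B ι q) (loc_one_mem ι q) k
    (fun i : Fin m => ι (evr r i g) / ι (lin q i) ^ k) (fun d _ => by
      have h2 := loc_form ι hq (k * d) (g ^ d) (hg.pow d)
      have h3 : ∀ i : Fin m, (ι (evr r i g) / ι (lin q i) ^ k) ^ d =
          ι (evr r i (g ^ d)) / ι (lin q i) ^ (k * d) := by
        intro i
        rw [div_pow, map_pow, map_pow, ← pow_mul]
      rw [Finset.sum_congr rfl fun i _ => h3 i]
      exact h2)
  have h4 : ∏ i : Fin m, ι (evr r i g) / ι (lin q i) ^ k = ι (NN m g) / ι (nm m q) ^ k := by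
    rw [Finset.prod_div_distrib, Finset.prod_pow, NN, nm, map_prod, map_prod]
  rwa [h4] at h1

theorem loc_clear (N : ℕ) (x : K) (hx : x ∈ loc_B ι q ^ N) :
    ι (nm m q) ^ N * x ∈ (A1 m r ^ N).map ι.toLinearMap := by
  induction N generalizing x with
  | zero =>
    rw [pow_zero (ι (nm m q)), one_mul]
    rw [pow_zero] at hx
    rw [pow_zero, Submodule.map_one]
    exact hx
  | succ N ih =>
    rw [pow_succ] at hx
    rw [pow_succ (A1 m r), Submodule.map_mul]
    induction hx using Submodule.mul_induction_on' with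
    | mem_mul_mem a ha b hb =>
      have h1 : ι (nm m q) ^ (N + 1) * (a * b) = (ι (nm m q) ^ N * a) * (ι (nm m q) * b) := by ring
      rw [h1]
      exact Submodule.mul_mem_mul (ih a ha) hb
    | add x _ y _ hx hy =>
      rw [mul_add]
      exact Submodule.add_mem _ hx hy

end loc_aux

theorem loc (m r k : ℕ) (hm : 1 ≤ m) (q : Fin r → ℚ) (hq : q ≠ 0) (g : MvPolynomial (Fin r) ℚ)
    (hg : g.IsHomogeneous k) : nm m q ^ (k * (m - 1)) * NN m g ∈ A1 m r ^ (k * m) := by
  let ι : MvPolynomial (Fin m × Fin r) ℚ →ₐ[ℚ] FractionRing (MvPolynomial (Fin m × Fin r) ℚ) :=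
    IsScalarTower.toAlgHom ℚ _ _
  have hι : Function.Injective ι :=
    IsFractionRing.injective (MvPolynomial (Fin m × Fin r) ℚ)
      (FractionRing (MvPolynomial (Fin m × Fin r) ℚ))
  have hq' : ∀ i, ι (lin q i) ≠ 0 := fun i h =>
    loc_lin_ne_zero hq i (hι (h.trans (map_zero ι).symm))
  have h1 := loc_clear ι (q := q) (k * m) _ (loc_norm ι hq' k g hg)
  have hQ := loc_Q ι hq'
  have h2 : ι (nm m q) ^ (k * m) * (ι (NN m g) / ι (nm m q) ^ k) =
      ι (nm m q ^ (k * (m - 1)) * NN m g) := by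
    have h3 : k * m = k * (m - 1) + k := by
      obtain ⟨m', rfl⟩ := Nat.exists_eq_add_of_le hm
      rw [Nat.add_sub_cancel_left]
      ring
    rw [h3, pow_add, map_mul, map_pow]
    field_simp
  rw [h2] at h1
  obtain ⟨y, hy, hy'⟩ := h1
  have h4 : y = nm m q ^ (k * (m - 1)) * NN m g := hι hy'
  rw [← h4]
  exact hy

end Helper87.TA
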