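import Mathlib

/-!
# TA-Pow: powers of spans (general linear algebra)

* `pow_range`: `(span (range f))^n ≤ span {∏_{l : Fin n} f (w l)}`: induction on `n`, `Submodule.span_mul_span`, `Fin.prod_univ_succ`
  (or `Submodule.span_pow` and `Set.mem_pow`).
* `pow_span`: the same for a finite set, collecting equal factors: `d w` is the number of `l` with `w l = w`
  (`Finset.prod_fiberwise`-type lemma, or directly by induction on `n`, adding `1` to one value of `d`).
* `exists_basis`: `exists_linearIndependent` (or `exists_linearIndepOn_extension`) gives a linearly independent subset of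
  the range with the same span; its cardinality is the dimension.
* `prod_mem_pow`: a product of `n` elements of `W` is in `W^n`.
-/

set_option autoImplicit false

open Finset

namespace Helper87.TA

theorem prod_mem_pow {R ι : Type*} [CommRing R] [Algebra ℚ R] (W : Submodule ℚ R) (s : Finset ι)
    (f : ι → R) (h : ∀ i ∈ s, f i ∈ W) : ∏ i ∈ s, f i ∈ W ^ s.card := by
  classical
  induction s using Finset.induction_on with
  | empty =>
    rw [Finset.prod_empty, Finset.card_empty, pow_zero]
    exact Submodule.one_le.mp le_rfl
  | insert i s hi ih =>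
    rw [Finset.prod_insert hi, Finset.card_insert_of_notMem hi, pow_succ']
    exact Submodule.mul_mem_mul (h i (Finset.mem_insert_self i s))
      (ih fun j hj => h j (Finset.mem_insert_of_mem hj))

theorem pow_range {R ι : Type*} [CommRing R] [Algebra ℚ R] (f : ι → R) (n : ℕ) :
    (Submodule.span ℚ (Set.range f)) ^ n ≤
      Submodule.span ℚ (Set.range fun w : Fin n → ι => ∏ l, f (w l)) := by
  induction n with
  | zero =>
    rw [pow_zero, Submodule.one_eq_span, Submodule.span_le]
    rintro x rfl
    exact Submodule.subset_span ⟨fun l => l.elim0, by simp⟩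
  | succ n ih =>
    rw [pow_succ']
    refine (mul_le_mul_right ih _).trans ?_
    rw [Submodule.span_mul_span, Submodule.span_le]
    rintro x ⟨y, ⟨i, rfl⟩, z, ⟨w, rfl⟩, rfl⟩
    refine Submodule.subset_span ⟨Fin.cons i w, ?_⟩
    simp only [Fin.prod_univ_succ, Fin.cons_zero, Fin.cons_succ]

theorem pow_span {R ι : Type*} [CommRing R] [Algebra ℚ R] [DecidableEq ι] (J : Finset ι) (f : ι → R)
    (n : ℕ) : (Submodule.span ℚ (f '' (J : Set ι))) ^ n ≤
      Submodule.span ℚ {x | ∃ d : ι → ℕ, ∑ w ∈ J, d w = n ∧ x = ∏ w ∈ J, f w ^ d w} := by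
  induction n with
  | zero =>
    rw [pow_zero, Submodule.one_eq_span, Submodule.span_le]
    rintro x rfl
    exact Submodule.subset_span ⟨fun _ => 0, by simp, by simp⟩
  | succ n ih =>
    rw [pow_succ']
    refine (mul_le_mul_right ih _).trans ?_
    rw [Submodule.span_mul_span, Submodule.span_le]
    rintro x ⟨y, ⟨j, hj, rfl⟩, z, ⟨d, hd, rfl⟩, rfl⟩
    have hj' : j ∈ J := hj
    refine Submodule.subset_span ⟨fun w => d w + if w = j then 1 else 0, ?_, ?_⟩
    · rw [Finset.sum_add_distrib, hd, Finset.sum_ite_eq' J j, if_pos hj']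
    · simp only [pow_add]
      rw [Finset.prod_mul_distrib, mul_comm]
      congr 1
      rw [Finset.prod_eq_single j]
      · simp
      · intro w _ hw
        rw [if_neg hw, pow_zero]
      · intro h
        exact absurd hj' h

theorem exists_basis {M ι : Type*} [AddCommGroup M] [Module ℚ M] (f : ι → M) (D : ℕ)
    (hf : Module.Finite ℚ (Submodule.span ℚ (Set.range f)))
    (hD : Module.finrank ℚ (Submodule.span ℚ (Set.range f)) ≤ D) :
    ∃ J : Finset ι, J.card ≤ D ∧ Submodule.span ℚ (Set.range f) = Submodule.span ℚ (f '' (J : Set ι)) := by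
  classical
  obtain ⟨b, hbs, hspan, hli⟩ := exists_linearIndependent ℚ (Set.range f)
  have hfd : Module.Finite ℚ (Submodule.span ℚ b) := by
    rw [hspan]
    exact hf
  have hli' : LinearIndependent ℚ (fun v : b => (⟨v, Submodule.subset_span v.2⟩ :
      Submodule.span ℚ b)) := by
    apply LinearIndependent.of_comp (Submodule.span ℚ b).subtype
    exact hli
  have hfin : Finite b := hli'.finite
  let _ : Fintype b := Fintype.ofFinite b
  have hcard : Fintype.card b ≤ D := by
    refine le_trans hli'.fintype_card_le_finrank ?_
    rw [hspan]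
    exact hD
  choose g hg using fun v : b => hbs v.2
  refine ⟨Finset.univ.image g, Finset.card_image_le.trans (by rwa [Finset.card_univ]), ?_⟩
  apply le_antisymm
  · rw [← hspan, Submodule.span_le]
    intro v hv
    refine Submodule.subset_span ⟨g ⟨v, hv⟩, ?_, hg ⟨v, hv⟩⟩
    exact Finset.mem_coe.2 (Finset.mem_image_of_mem _ (Finset.mem_univ _))
  · exact Submodule.span_mono (Set.image_subset_range _ _)

end Helper87.TA
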