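import Mathlib
import Pool.Agent.Helper87.TA.Defs

/-!
# TA-RowA: row degrees

* `RH_mul`, `monomial_mem_RH`, `lin_mem_RH`, `X_mem_RH`: bookkeeping (`coeff_mul`, `rdeg` is additive).
-/

set_option autoImplicit false

open MvPolynomial Finset

namespace Helper87.TA

theorem rowa_rdeg_add {m r : ℕ} (e e' : Fin m × Fin r →₀ ℕ) (i : Fin m) :
    rdeg (e + e') i = rdeg e i + rdeg e' i := by
  unfold rdeg
  rw [← Finset.sum_add_distrib]
  rfl

theorem rowa_rdeg_single {m r : ℕ} (i₀ : Fin m) (j : Fin r) (i : Fin m) :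
    rdeg (Finsupp.single (i₀, j) 1) i = if i = i₀ then 1 else 0 := by
  unfold rdeg
  by_cases h : i = i₀
  · subst h
    rw [if_pos rfl, Finset.sum_eq_single j]
    · rw [Finsupp.single_eq_same]
    · intro b _ hb
      rw [Finsupp.single_eq_of_ne]
      intro h
      exact hb (Prod.ext_iff.1 h).2
    · intro h
      exact absurd (Finset.mem_univ _) h
  · rw [if_neg h]
    apply Finset.sum_eq_zero
    intro b _
    rw [Finsupp.single_eq_of_ne]
    intro h'
    exact h (Prod.ext_iff.1 h').1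

theorem RH_mul {m r : ℕ} (d d' : Fin m → ℕ) : RH r d * RH r d' ≤ RH r (fun i => d i + d' i) := by
  rw [Submodule.mul_le]
  intro f hf g hg e he i
  rw [coeff_mul] at he
  obtain ⟨x, hx, hne⟩ := Finset.exists_ne_zero_of_sum_ne_zero he
  rw [Finset.HasAntidiagonal.mem_antidiagonal] at hx
  rw [← hx, rowa_rdeg_add, hf x.1 (left_ne_zero_of_mul hne) i, hg x.2 (right_ne_zero_of_mul hne) i]

theorem monomial_mem_RH {m r : ℕ} (e : Fin m × Fin r →₀ ℕ) (c : ℚ) : monomial e c ∈ RH r (rdeg e) := by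
  intro e' he' i
  rw [coeff_monomial] at he'
  split_ifs at he' with h
  · rw [h]
  · exact absurd rfl he'

theorem X_mem_RH {m r : ℕ} (i₀ : Fin m) (j : Fin r) :
    (X (i₀, j) : MvPolynomial (Fin m × Fin r) ℚ) ∈ RH r (fun i : Fin m => if i = i₀ then 1 else 0) := by
  have h := monomial_mem_RH (Finsupp.single (i₀, j) 1) (1 : ℚ)
  have e : rdeg (Finsupp.single (i₀, j) 1) = fun i : Fin m => if i = i₀ then 1 else 0 :=
    funext fun i => rowa_rdeg_single i₀ j i
  rw [e] at h
  exact h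

theorem lin_mem_RH {m r : ℕ} (w : Fin r → ℚ) (i₀ : Fin m) :
    lin w i₀ ∈ RH r (fun i : Fin m => if i = i₀ then 1 else 0) := by
  unfold lin
  refine Submodule.sum_mem _ fun j _ => ?_
  rw [← smul_eq_C_mul]
  exact Submodule.smul_mem _ _ (X_mem_RH i₀ j)

end Helper87.TA
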