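import Mathlib
import Pool.Agent.Helper87.TA.Defs

/-!
# TA-Star: products of distinct linear forms in general position

`qv r t = (1, t, t^2, ..., t^(r-1))`.  Any `r` of these vectors are a basis (Vandermonde).
* `X_mem_lin`: choose `f : Fin r ≃ T` (`Finset.equivFinOfCardEq`), `V = Matrix.vandermonde (fun u => (f u : ℚ))`, `V u j = (f u)^j`, `det V ≠ 0`
  (`Matrix.det_vandermonde_ne_zero_iff`), so `X (i, j) = ∑_u V⁻¹ j u • lin (qv r (f u)) i`.
* `star`: induction on `e` (for all `T`).  `e = 0`: `T' = ∅`.  Step: `T` has at least `r` elements, choose `T₀ ⊆ T` with `r` elements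
  (`Finset.exists_subset_card_eq`); `X (i, κ 0)` is a combination of the `lin (qv r t) i`, `t ∈ T₀`; for each such `t` the product of the other
  factors is by induction in the span of the `e`-fold products of distinct forms from `T.erase t`; multiply by `lin (qv r t) i`
  (`Finset.prod_insert`).
-/

set_option autoImplicit false

open MvPolynomial Finset

namespace Helper87.TA

/-- points of the moment curve -/
def qv (r : ℕ) (t : ℕ) : Fin r → ℚ := fun j => (t : ℚ) ^ (j : ℕ)

theorem X_mem_lin {m r : ℕ} (i : Fin m) (j : Fin r) (T : Finset ℕ) (hT : T.card = r) :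
    (X (i, j) : MvPolynomial (Fin m × Fin r) ℚ) ∈
      Submodule.span ℚ ((fun t => lin (qv r t) i) '' (T : Set ℕ)) := by
  classical
  let f : Fin r ≃ T := (Finset.equivFinOfCardEq hT).symm
  let V : Matrix (Fin r) (Fin r) ℚ := Matrix.vandermonde fun u => ((f u : ℕ) : ℚ)
  have hdet : V.det ≠ 0 := by
    rw [Matrix.det_vandermonde_ne_zero_iff]
    intro u u' h
    have h1 : ((f u : ℕ) : ℚ) = ((f u' : ℕ) : ℚ) := h
    exact f.injective (Subtype.ext (Nat.cast_injective h1))
  have hinv : V⁻¹ * V = 1 := Matrix.nonsing_inv_mul V (Ne.isUnit hdet)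
  have key : (X (i, j) : MvPolynomial (Fin m × Fin r) ℚ) =
      ∑ u : Fin r, (V⁻¹ j u) • lin (qv r (f u : ℕ)) i := by
    have h1 : ∀ u : Fin r, (V⁻¹ j u) • lin (m := m) (qv r (f u : ℕ)) i =
        ∑ j' : Fin r, C (V⁻¹ j u * V u j') * X (i, j') := by
      intro u
      unfold lin
      rw [Finset.smul_sum]
      refine Finset.sum_congr rfl fun j' _ => ?_
      rw [smul_eq_C_mul, ← mul_assoc, ← C_mul]
      rfl
    simp only [h1]
    rw [Finset.sum_comm]
    simp only [← Finset.sum_mul, ← map_sum]
    have h2 : ∀ j' : Fin r, ∑ u, V⁻¹ j u * V u j' = if j = j' then 1 else 0 := by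
      intro j'
      have h3 := congrFun (congrFun hinv j) j'
      rw [Matrix.mul_apply, Matrix.one_apply] at h3
      exact h3
    simp only [h2]
    rw [Finset.sum_eq_single j]
    · rw [if_pos rfl, C_1, one_mul]
    · intro j' _ hj'
      rw [if_neg (Ne.symm hj'), C_0, zero_mul]
    · intro h
      exact absurd (Finset.mem_univ _) h
  rw [key]
  exact Submodule.sum_mem _ fun u _ => Submodule.smul_mem _ _
    (Submodule.subset_span ⟨(f u : ℕ), (f u).2, rfl⟩)

theorem star {m r : ℕ} (i : Fin m) (e : ℕ) (T : Finset ℕ) (hT : e + r ≤ T.card + 1) (κ : Fin e → Fin r) :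
    (∏ l, X (i, κ l) : MvPolynomial (Fin m × Fin r) ℚ) ∈
      Submodule.span ℚ {x | ∃ T' : Finset ℕ, T' ⊆ T ∧ T'.card = e ∧ x = ∏ t ∈ T', lin (qv r t) i} := by
  classical
  induction e generalizing T with
  | zero =>
    refine Submodule.subset_span ⟨∅, Finset.empty_subset _, Finset.card_empty, ?_⟩
    simp
  | succ e ih =>
    obtain ⟨T₀, hT₀, hc⟩ := Finset.exists_subset_card_eq (s := T) (n := r) (by omega)
    have h1 := X_mem_lin (m := m) i (κ 0) T₀ hc
    rw [Fin.prod_univ_succ]
    have h4 : ∀ w ∈ Submodule.span ℚ ((fun t => lin (m := m) (qv r t) i) '' (T₀ : Set ℕ)),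
        w * ∏ l : Fin e, X (i, κ l.succ) ∈ Submodule.span ℚ {x : MvPolynomial (Fin m × Fin r) ℚ |
          ∃ T' : Finset ℕ, T' ⊆ T ∧ T'.card = e + 1 ∧ x = ∏ t ∈ T', lin (qv r t) i} := by
     intro w hw
     induction hw using Submodule.span_induction with
     | mem w hw =>
       obtain ⟨t, ht, rfl⟩ := hw
       have htT : t ∈ T := hT₀ ht
       have h2 := ih (T.erase t) (by rw [Finset.card_erase_of_mem htT]; omega) fun l => κ l.succ
       have h3 : ∀ P ∈ Submodule.span ℚ {x : MvPolynomial (Fin m × Fin r) ℚ | ∃ T' : Finset ℕ,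
           T' ⊆ T.erase t ∧ T'.card = e ∧ x = ∏ t ∈ T', lin (qv r t) i},
           lin (qv r t) i * P ∈ Submodule.span ℚ {x : MvPolynomial (Fin m × Fin r) ℚ |
             ∃ T' : Finset ℕ, T' ⊆ T ∧ T'.card = e + 1 ∧ x = ∏ t ∈ T', lin (qv r t) i} := by
         intro P hP
         induction hP using Submodule.span_induction with
         | mem x hx =>
           obtain ⟨T', hT', hc', rfl⟩ := hx
           have hn : t ∉ T' := fun h => Finset.notMem_erase t T (hT' h)
           refine Submodule.subset_span ⟨insert t T', ?_, ?_, ?_⟩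
           · exact Finset.insert_subset htT (hT'.trans (Finset.erase_subset _ _))
           · rw [Finset.card_insert_of_notMem hn, hc']
           · rw [Finset.prod_insert hn]
         | zero =>
           rw [mul_zero]
           exact Submodule.zero_mem _
         | add x y _ _ hx hy =>
           rw [mul_add]
           exact Submodule.add_mem _ hx hy
         | smul c x _ hx =>
           rw [mul_smul_comm]
           exact Submodule.smul_mem _ _ hx
       exact h3 _ h2
     | zero =>
       rw [zero_mul]
       exact Submodule.zero_mem _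
     | add x y _ _ hx hy =>
       rw [add_mul]
       exact Submodule.add_mem _ hx hy
     | smul c x _ hx =>
       rw [smul_mul_assoc]
       exact Submodule.smul_mem _ _ hx
    exact h4 _ h1

end Helper87.TA
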