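import Mathlib
import Pool.Agent.Helper87.TA.Defs
import Pool.Agent.Helper87.TA.St.RowA
import Pool.Agent.Helper87.TA.St.Star

/-!
# TA-RowC: polynomials of high row degrees are divisible by norms of vectors of the moment curve

* `split_row`: induction on `k`: a row with `rdeg e i₀ > 0` has some `e (i₀, j) > 0`.
* `row_stepC`: induction over `S` (`Finset.induction_on`), for all `T`, `e`, `c`.  `S = ∅`: `nS ∅ w = 1`, `T` is not empty, and
  `monomial_mem_RH`.  Step to `insert i₀ S`, `s = |S|`, `s + 1 ≤ m`; put `k = s (r - 1) + 1 ≤ (m - 1) (r - 1) + 1 ≤ rdeg e i₀`.  `split_row` gives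
  `monomial e c = (∏_{l : Fin k} X (i₀, κ l)) * monomial e' c`, where `e'` has the same degrees in the other rows.  As `k + r ≤ T.card + 1` (`r ≥ 1`; for `r = 0`
  all row degrees are `0`), `star` writes the product as a combination of `∏_{t ∈ T'} lin (qv r t) i₀`, `T' ⊆ T`, `|T'| = k = s (r - 1) + 1`.  The induction
  hypothesis for `S`, `T'`, `e'`: `monomial e' c ∈ span {nS S (qv r t) : t ∈ T'} * RH ..`, and for `t₀ ∈ T'`
  `(∏_{t ∈ T'} lin (qv r t) i₀) * nS S (qv r t₀) = nS (insert i₀ S) (qv r t₀) * ∏_{t ∈ T'.erase t₀} lin (qv r t) i₀`, the last product being in `RH` of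
  degree `k - 1` in the row `i₀` and `0` elsewhere (`lin_mem_RH`, `RH_mul`).  Collect the degrees with `RH_mul`.
* `RH_stepC`: `RH r (n, ..., n)` is spanned by monomials (`MvPolynomial.as_sum`); `S = univ`, `nS univ w = nm m w`.  `RH_iterC`: induction.
-/

set_option autoImplicit false

open MvPolynomial Finset

namespace Helper87.TA

theorem rowc_prod_mem {m r : ℕ} (i₀ : Fin m) (U : Finset ℕ) :
    (∏ t ∈ U, lin (qv r t) i₀) ∈ RH r (fun i : Fin m => if i = i₀ then U.card else 0) := by
  classical
  induction U using Finset.induction_on with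
  | empty =>
    intro e he i
    rw [Finset.prod_empty, coeff_one] at he
    have h1 : e = 0 := by
      by_contra h
      exact he (if_neg fun h2 => h h2.symm)
    subst h1
    simp [rdeg]
  | insert t U ht ih =>
    rw [Finset.prod_insert ht]
    have h1 := RH_mul _ _ (Submodule.mul_mem_mul (lin_mem_RH (qv r t) i₀) ih)
    have h2 : (fun i : Fin m => (if i = i₀ then 1 else 0) + (if i = i₀ then U.card else 0)) =
        fun i : Fin m => if i = i₀ then (insert t U).card else 0 := by
      funext i
      rw [Finset.card_insert_of_notMem ht]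
      split_ifs
      · omega
      · rfl
    rw [h2] at h1
    exact h1

theorem split_row {m r : ℕ} (i₀ : Fin m) (k : ℕ) (e : Fin m × Fin r →₀ ℕ) (hk : k ≤ rdeg e i₀) (c : ℚ) :
    ∃ (κ : Fin k → Fin r) (e' : Fin m × Fin r →₀ ℕ),
      monomial e c = (∏ l, X (i₀, κ l)) * monomial e' c ∧ rdeg e' i₀ + k = rdeg e i₀ ∧
        ∀ i, i ≠ i₀ → rdeg e' i = rdeg e i := by
  classical
  induction k generalizing e with
  | zero => exact ⟨Fin.elim0, e, by simp, by simp, fun _ _ => rfl⟩
  | succ k ih =>
    have h3 : ∑ _j : Fin r, 0 < ∑ j : Fin r, e (i₀, j) := by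
      rw [Finset.sum_const_zero]
      unfold rdeg at hk
      omega
    obtain ⟨j, _, hj⟩ := Finset.exists_lt_of_sum_lt h3
    obtain ⟨e', he'⟩ : ∃ e' : Fin m × Fin r →₀ ℕ, e = Finsupp.single (i₀, j) 1 + e' := by
      refine ⟨e - Finsupp.single (i₀, j) 1, ?_⟩
      ext p
      rw [Finsupp.add_apply, Finsupp.tsub_apply, Finsupp.single_apply]
      split_ifs with h
      · subst h
        omega
      · omega
    have hr : ∀ i, rdeg e i = (if i = i₀ then 1 else 0) + rdeg e' i := by
      intro i
      rw [he', rowa_rdeg_add, rowa_rdeg_single]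
    have h0 := hr i₀
    rw [if_pos rfl] at h0
    obtain ⟨κ, e'', h1, h2, h4⟩ := ih e' (by omega)
    refine ⟨Fin.cons j κ, e'', ?_, by omega, ?_⟩
    · have hmon : monomial e c = X (i₀, j) * monomial e' c := by
        rw [he', X, monomial_mul, one_mul]
      rw [hmon, h1, Fin.prod_univ_succ, Fin.cons_zero, mul_assoc]
      simp only [Fin.cons_succ]
    · intro i hi
      have h5 := hr i
      rw [if_neg hi] at h5
      rw [h4 i hi]
      omega

theorem rowc_lift {m r : ℕ} (S : Finset (Fin m)) (i₀ : Fin m) (hi : i₀ ∉ S) (T T' : Finset ℕ)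
    (hT : T' ⊆ T) (a : MvPolynomial (Fin m × Fin r) ℚ)
    (ha : a ∈ Submodule.span ℚ ((fun t => nS S (qv r t)) '' (T' : Set ℕ))) :
    (∏ t ∈ T', lin (qv r t) i₀) * a ∈
      Submodule.span ℚ ((fun t => nS (insert i₀ S) (qv r t)) '' (T : Set ℕ)) *
        RH r (fun i : Fin m => if i = i₀ then T'.card - 1 else 0) := by
  classical
  induction ha using Submodule.span_induction with
  | mem x hx =>
    obtain ⟨t₀, ht₀, rfl⟩ := hx
    have h0 : t₀ ∈ T' := ht₀
    have h1 : (∏ t ∈ T', lin (qv r t) i₀) * nS S (qv r t₀) =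
        nS (insert i₀ S) (qv r t₀) * ∏ t ∈ T'.erase t₀, lin (qv r t) i₀ := by
      rw [← Finset.mul_prod_erase T' _ h0]
      unfold nS
      rw [Finset.prod_insert hi]
      ring
    have h2 := rowc_prod_mem (r := r) i₀ (T'.erase t₀)
    rw [Finset.card_erase_of_mem h0] at h2
    change (∏ t ∈ T', lin (qv r t) i₀) * nS S (qv r t₀) ∈ _
    rw [h1]
    exact Submodule.mul_mem_mul (Submodule.subset_span ⟨t₀, hT h0, rfl⟩) h2
  | zero => simp
  | add x y _ _ hx hy =>
    rw [mul_add]
    exact add_mem hx hy
  | smul c x _ hx =>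
    rw [mul_smul_comm]
    exact Submodule.smul_mem _ _ hx

theorem row_stepC {m r : ℕ} (S : Finset (Fin m)) (T : Finset ℕ) (hT : S.card * (r - 1) + 1 ≤ T.card)
    (e : Fin m × Fin r →₀ ℕ) (he : ∀ i ∈ S, (m - 1) * (r - 1) + 1 ≤ rdeg e i) (c : ℚ) :
    monomial e c ∈ Submodule.span ℚ ((fun t => nS S (qv r t)) '' (T : Set ℕ)) *
      RH r (fun i => if i ∈ S then rdeg e i - 1 else rdeg e i) := by
  classical
  induction S using Finset.induction_on generalizing T e with
  | empty =>
    have h1 : (fun i : Fin m => if i ∈ (∅ : Finset (Fin m)) then rdeg e i - 1 else rdeg e i) =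
        rdeg e := by
      funext i
      simp
    rw [h1, ← one_mul (monomial e c)]
    obtain ⟨t, ht⟩ : T.Nonempty := Finset.card_pos.1 (by omega)
    exact Submodule.mul_mem_mul (Submodule.subset_span ⟨t, ht, by simp [nS]⟩)
      (monomial_mem_RH e c)
  | insert i₀ S hi ih =>
    have hcard : S.card + 1 ≤ m := by
      have h1 := Finset.card_le_univ (insert i₀ S)
      rw [Finset.card_insert_of_notMem hi, Fintype.card_fin] at h1
      exact h1
    have h0 := he i₀ (Finset.mem_insert_self i₀ S)
    have hr1 : 1 ≤ r := by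
      rcases Nat.eq_zero_or_pos r with h | h
      · subst h
        simp [rdeg] at h0
      · exact h
    rw [Finset.card_insert_of_notMem hi] at hT
    have h2 : S.card * (r - 1) ≤ (m - 1) * (r - 1) := Nat.mul_le_mul_right _ (by omega)
    have h2' : (S.card + 1) * (r - 1) = S.card * (r - 1) + (r - 1) := by ring
    obtain ⟨κ, e', hmon, hd0, hd⟩ := split_row i₀ (S.card * (r - 1) + 1) e (by omega) c
    have hih : ∀ T' : Finset ℕ, T'.card = S.card * (r - 1) + 1 → monomial e' c ∈
        Submodule.span ℚ ((fun t => nS S (qv r t)) '' (T' : Set ℕ)) *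
          RH r (fun i => if i ∈ S then rdeg e' i - 1 else rdeg e' i) := by
      intro T' hT'
      refine ih T' (by omega) e' ?_
      intro i hiS
      have h5 : i ≠ i₀ := fun h => hi (h ▸ hiS)
      rw [hd i h5]
      exact he i (Finset.mem_insert_of_mem hiS)
    have hstar := star (r := r) i₀ (S.card * (r - 1) + 1) T (by omega) κ
    have key : ∀ x ∈ Submodule.span ℚ {x : MvPolynomial (Fin m × Fin r) ℚ | ∃ T' : Finset ℕ,
        T' ⊆ T ∧ T'.card = S.card * (r - 1) + 1 ∧ x = ∏ t ∈ T', lin (qv r t) i₀},
        x * monomial e' c ∈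
          Submodule.span ℚ ((fun t => nS (insert i₀ S) (qv r t)) '' (T : Set ℕ)) *
          (RH r (fun i : Fin m => if i = i₀ then S.card * (r - 1) else 0) *
            RH r (fun i => if i ∈ S then rdeg e' i - 1 else rdeg e' i)) := by
      intro x hx
      induction hx using Submodule.span_induction with
      | mem x hx =>
        obtain ⟨T', hT', hT'c, rfl⟩ := hx
        have h6 := hih T' hT'c
        revert h6
        generalize monomial e' c = y
        intro h6
        induction h6 using Submodule.mul_induction_on' with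
        | mem_mul_mem a ha b hb =>
          rw [← mul_assoc, ← mul_assoc]
          have h7 := rowc_lift S i₀ hi T T' hT' a ha
          rw [hT'c, Nat.add_sub_cancel] at h7
          exact Submodule.mul_mem_mul h7 hb
        | add x _ y _ hx hy =>
          rw [mul_add]
          exact add_mem hx hy
      | zero => simp
      | add x y _ _ hx hy =>
        rw [add_mul]
        exact add_mem hx hy
      | smul c x _ hx =>
        rw [smul_mul_assoc]
        exact Submodule.smul_mem _ _ hx
    rw [hmon]
    refine (mul_le_mul_right ((RH_mul _ _).trans (le_of_eq ?_)) _) (key _ hstar)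
    congr 1
    funext i
    by_cases h5 : i = i₀
    · subst h5
      rw [if_pos rfl, if_neg hi, if_pos (Finset.mem_insert_self i S)]
      omega
    · have h4 := hd i h5
      rw [if_neg h5]
      by_cases h6 : i ∈ S
      · rw [if_pos h6, if_pos (Finset.mem_insert_of_mem h6)]
        omega
      · rw [if_neg h6, if_neg (fun h => (Finset.mem_insert.1 h).elim h5 h6)]
        omega

theorem RH_stepC (m r n : ℕ) (T : Finset ℕ) (hT : m * (r - 1) + 1 ≤ T.card)
    (hn : (m - 1) * (r - 1) + 1 ≤ n) :
    RH r (fun _ : Fin m => n) ≤ Submodule.span ℚ ((fun t => nm m (qv r t)) '' (T : Set ℕ)) *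
      RH r (fun _ : Fin m => n - 1) := by
  intro f hf
  rw [f.as_sum]
  refine Submodule.sum_mem _ ?_
  intro e he
  have h1 : ∀ i, rdeg e i = n := hf e (mem_support_iff.1 he)
  have h2 := row_stepC (r := r) (Finset.univ : Finset (Fin m)) T
    (by rw [Finset.card_univ, Fintype.card_fin]; exact hT) e (fun i _ => by rw [h1 i]; exact hn)
    (coeff e f)
  have h3 : (fun i : Fin m => if i ∈ (Finset.univ : Finset (Fin m)) then rdeg e i - 1
      else rdeg e i) = fun _ => n - 1 := by
    funext i
    rw [if_pos (Finset.mem_univ i), h1 i]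
  rw [h3] at h2
  exact h2

theorem RH_iterC (m r n : ℕ) (T : Finset ℕ) (hT : m * (r - 1) + 1 ≤ T.card)
    (hn : (m - 1) * (r - 1) ≤ n) :
    RH r (fun _ : Fin m => n) ≤
      Submodule.span ℚ ((fun t => nm m (qv r t)) '' (T : Set ℕ)) ^ (n - (m - 1) * (r - 1)) *
        RH r (fun _ : Fin m => (m - 1) * (r - 1)) := by
  induction n, hn using Nat.le_induction with
  | base => rw [Nat.sub_self, pow_zero, one_mul]
  | succ n hn ih =>
    have h1 := RH_stepC m r (n + 1) T hT (by omega)
    rw [Nat.add_sub_cancel] at h1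
    have h2 : n + 1 - (m - 1) * (r - 1) = (n - (m - 1) * (r - 1)) + 1 := by omega
    rw [h2, pow_succ', mul_assoc]
    exact h1.trans (mul_le_mul_right ih _)

end Helper87.TA
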