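import Mathlib
import Pool.Agent.Helper87.TA.Defs
import Pool.Agent.Helper87.TA.St.Ryser

/-!
# TA-Sym: symmetrization

* `sy_mul`: the automorphism `rename (σ × id)` fixes every `nm m w` (reindex the product), hence every element of `A1 ^ j`
  (`Submodule.pow_induction_on_left` or `Submodule.span_induction` with `pow_range`); so `sy (x y) = x sy y`.
* `sy_T0`: `sy (∏_i X (i, i)^n) = ∑_σ ∏_i X (σ i, i)^n = ∑_σ ∏_i X (i, σ⁻¹ i)^n = T0 m n`.
* `sy_mem`: for a monomial `e` with all row degrees `k`, let `g l = ∏_j X_j^(e (l, j))` (a monomial in `r` variables, homogeneous of degree `k`);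
  `sy (monomial e 1) = ∑_σ ∏_i evr (σ i) (g i) = ∑_σ ∏_i evr i (g (σ⁻¹ i))` and by `ryser` with `A i l = evr r i (g l)` this is a
  combination of `∏_i evr r i (∑_{l ∈ S} g l) = NN m (∑_{l ∈ S} g l)`.  The space `RH r (k, ..., k)` is spanned by such monomials.
-/

set_option autoImplicit false

open MvPolynomial Finset

namespace Helper87.TA

theorem sym_apply (m r : ℕ) (x : MvPolynomial (Fin m × Fin r) ℚ) :
    sy m r x = ∑ σ : Equiv.Perm (Fin m), rename (fun p : Fin m × Fin r => (σ p.1, p.2)) x := by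
  unfold sy
  rw [LinearMap.sum_apply]
  rfl

theorem sym_nm (m r : ℕ) (σ : Equiv.Perm (Fin m)) (w : Fin r → ℚ) :
    rename (fun p : Fin m × Fin r => (σ p.1, p.2)) (nm m w) = nm m w := by
  unfold nm
  rw [map_prod]
  have h : ∀ i, rename (fun p : Fin m × Fin r => (σ p.1, p.2)) (lin w i) = lin w (σ i) := by
    intro i
    unfold lin
    rw [map_sum]
    refine Finset.sum_congr rfl fun j _ => ?_
    rw [map_mul, rename_C, rename_X]
  simp only [h]
  exact Equiv.prod_comp σ (lin w)

theorem sym_fix (m r n : ℕ) (σ : Equiv.Perm (Fin m)) (x : MvPolynomial (Fin m × Fin r) ℚ)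
    (hx : x ∈ A1 m r ^ n) : rename (fun p : Fin m × Fin r => (σ p.1, p.2)) x = x := by
  induction hx using Submodule.pow_induction_on_left' with
  | algebraMap c =>
    rw [AlgHom.commutes]
  | add x y i hx hy h1 h2 => rw [map_add, h1, h2]
  | mem_mul a ha i x hx h =>
    rw [map_mul, h]
    congr 1
    unfold A1 at ha
    induction ha using Submodule.span_induction with
    | mem y hy =>
      obtain ⟨w, rfl⟩ := hy
      exact sym_nm m r σ w
    | zero => rw [map_zero]
    | add y z _ _ h1 h2 => rw [map_add, h1, h2]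
    | smul c y _ h1 => rw [map_smul, h1]

theorem sy_mul (m r n : ℕ) (x y : MvPolynomial (Fin m × Fin r) ℚ) (hx : x ∈ A1 m r ^ n) :
    sy m r (x * y) = x * sy m r y := by
  rw [sym_apply, sym_apply, Finset.mul_sum]
  refine Finset.sum_congr rfl fun σ _ => ?_
  rw [map_mul, sym_fix m r n σ x hx]

theorem sy_T0 (m n : ℕ) : sy m m (∏ i, X (i, i) ^ n) = T0 m n := by
  rw [sym_apply]
  unfold T0
  rw [← Equiv.sum_comp (Equiv.inv (Equiv.Perm (Fin m)))]
  refine Finset.sum_congr rfl fun σ _ => ?_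
  rw [map_prod]
  have h : ∀ i, rename (fun p : Fin m × Fin m => ((Equiv.inv (Equiv.Perm (Fin m))) σ p.1, p.2))
      (X (i, i) ^ n : MvPolynomial (Fin m × Fin m) ℚ) = X (σ⁻¹ i, i) ^ n := by
    intro i
    rw [map_pow, rename_X]
    rfl
  simp only [h]
  rw [← Equiv.prod_comp σ]
  refine Finset.prod_congr rfl fun i _ => ?_
  have e2 : σ⁻¹ (σ i) = i := σ.symm_apply_apply i
  rw [e2]

/-- the row of an exponent vector -/
noncomputable def sym_row {m r : ℕ} (e : Fin m × Fin r →₀ ℕ) (i : Fin m) :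
    MvPolynomial (Fin r) ℚ := ∏ j, X j ^ e (i, j)

theorem sym_row_hom {m r : ℕ} (e : Fin m × Fin r →₀ ℕ) (i : Fin m) {k : ℕ} (h : rdeg e i = k) :
    (sym_row e i).IsHomogeneous k := by
  rw [← h]
  unfold sym_row rdeg
  refine IsHomogeneous.prod _ _ _ fun j _ => ?_
  have := (isHomogeneous_X ℚ j).pow (e (i, j))
  rwa [one_mul] at this

theorem sym_monomial {m r : ℕ} (e : Fin m × Fin r →₀ ℕ) :
    (monomial e (1 : ℚ)) = ∏ i, evr r i (sym_row e i) := by
  rw [monomial_eq, map_one, one_mul, Finsupp.prod_fintype _ _ (fun i => pow_zero _),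
    Fintype.prod_prod_type]
  refine Finset.prod_congr rfl fun i _ => ?_
  unfold sym_row evr
  rw [map_prod]
  refine Finset.prod_congr rfl fun j _ => ?_
  rw [map_pow, rename_X]

theorem sym_evr {m r : ℕ} (σ : Equiv.Perm (Fin m)) (i : Fin m) (g : MvPolynomial (Fin r) ℚ) :
    rename (fun p : Fin m × Fin r => (σ p.1, p.2)) (evr r i g) = evr r (σ i) g := by
  unfold evr
  rw [rename_rename]
  rfl

theorem sym_mon {m r k : ℕ} (e : Fin m × Fin r →₀ ℕ) (h : ∀ i, rdeg e i = k) :
    sy m r (monomial e 1) ∈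
      Submodule.span ℚ {x | ∃ g : MvPolynomial (Fin r) ℚ, g.IsHomogeneous k ∧ x = NN m g} := by
  have h1 : sy m r (monomial e 1) =
      ∑ σ : Equiv.Perm (Fin m), ∏ i, evr r i (sym_row e (σ i)) := by
    rw [sym_apply, ← Equiv.sum_comp (Equiv.inv (Equiv.Perm (Fin m)))]
    refine Finset.sum_congr rfl fun σ _ => ?_
    rw [sym_monomial, map_prod]
    simp only [sym_evr]
    rw [← Equiv.prod_comp σ]
    refine Finset.prod_congr rfl fun i _ => ?_
    have : (Equiv.inv (Equiv.Perm (Fin m))) σ (σ i) = i := σ.symm_apply_apply i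
    rw [this]
  rw [h1, ryser (fun i l => evr r i (sym_row e l))]
  refine Submodule.sum_mem _ fun S _ => ?_
  have h2 : ((-1) ^ (m - S.card) * ∏ i, ∑ l ∈ S, evr r i (sym_row e l) :
      MvPolynomial (Fin m × Fin r) ℚ) = ((-1 : ℚ) ^ (m - S.card)) • NN m (∑ l ∈ S, sym_row e l) := by
    rw [smul_eq_C_mul, map_pow, map_neg, map_one]
    congr 1
    unfold NN
    refine Finset.prod_congr rfl fun i _ => ?_
    rw [map_sum]
  rw [h2]
  refine Submodule.smul_mem _ _ (Submodule.subset_span ⟨_, ?_, rfl⟩)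
  exact IsHomogeneous.sum _ _ _ fun l _ => sym_row_hom e l (h l)

theorem sy_mem (m r k : ℕ) (y : MvPolynomial (Fin m × Fin r) ℚ) (hy : y ∈ RH r (fun _ : Fin m => k)) :
    sy m r y ∈ Submodule.span ℚ {x | ∃ g : MvPolynomial (Fin r) ℚ, g.IsHomogeneous k ∧ x = NN m g} := by
  rw [y.as_sum, map_sum]
  refine Submodule.sum_mem _ fun e he => ?_
  have h1 : (monomial e (coeff e y) : MvPolynomial (Fin m × Fin r) ℚ) =
      coeff e y • monomial e 1 := by
    rw [smul_monomial, smul_eq_mul, mul_one]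
  rw [h1, map_smul]
  refine Submodule.smul_mem _ _ (sym_mon e fun i => ?_)
  exact hy e (mem_support_iff.1 he) i

end Helper87.TA
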