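import Mathlib
import Pool.Agent.Helper87.TA.Defs
import Pool.Agent.Helper87.TA.St.Pow
import Pool.Agent.Helper87.TA.St.RowC
import Pool.Agent.Helper87.TA.St.Loc
import Pool.Agent.Helper87.TA.St.Sym

/-!
# TA-FHC: the permanent is a combination of products of norms of linear forms

Put `k = (m - 1)^2`, `QT = span {nm m (qv m t) : t ∈ T}`.  `T0 m n = sy (∏ X (i, i)^n)` (`sy_T0`) and `∏ X (i, i)^n ∈ RH (n, ..., n) ≤ QT^(n-k) * RH (k, ..., k)`
(`RH_iterC` with `r = m`), so by `sy_mul` (note `QT ≤ A1 m m`), `sy_mem` and `Submodule.mul_induction_on`,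
`T0 m n ∈ QT^(n-k) * span {NN g : deg g = k}`.  By `pow_span` it remains to see (`fhC_mul`) that
`(∏_{t ∈ T} nm (qv m t) ^ γ t) * NN g ∈ QT^(n - k m) * A1^(k m)` if `∑ γ t = n - k`: as `n - k ≥ |T| k (m - 1)` some `γ t₀ ≥ k (m - 1)` (pigeonhole,
`Finset.exists_le_of_sum_le`), split off `nm (qv m t₀) ^ (k (m - 1))` and use `loc` (`qv m t₀ ≠ 0` since its first coordinate is `1`).
-/

set_option autoImplicit false

open MvPolynomial Finset

namespace Helper87.TA

theorem fhC_prod_mem {R ι : Type*} [CommRing R] [Algebra ℚ R] [DecidableEq ι] (W : Submodule ℚ R)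
    (s : Finset ι) (f : ι → R) (d : ι → ℕ) (h : ∀ i ∈ s, f i ∈ W) :
    ∏ i ∈ s, f i ^ d i ∈ W ^ (∑ i ∈ s, d i) := by
  induction s using Finset.induction_on with
  | empty =>
    rw [Finset.prod_empty, Finset.sum_empty, pow_zero]
    exact Submodule.one_le.1 le_rfl
  | insert a s ha ih =>
    rw [Finset.prod_insert ha, Finset.sum_insert ha, pow_add]
    refine Submodule.mul_mem_mul (Submodule.pow_mem_pow W (h a (mem_insert_self a s)) (d a)) ?_
    exact ih fun i hi => h i (mem_insert_of_mem hi)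

theorem fhC_qv_ne (m : ℕ) (hm : 1 ≤ m) (t : ℕ) : qv m t ≠ 0 := by
  intro h
  have h1 := congrFun h ⟨0, hm⟩
  unfold qv at h1
  simp at h1

theorem fhC_mul (m n k : ℕ) (hm : 1 ≤ m) (T : Finset ℕ) (hT : T.Nonempty)
    (hn : k + T.card * (k * (m - 1)) ≤ n) (γ : ℕ → ℕ) (hγ : ∑ t ∈ T, γ t = n - k)
    (g : MvPolynomial (Fin m) ℚ) (hg : g.IsHomogeneous k) :
    (∏ t ∈ T, nm m (qv m t) ^ γ t) * NN m g ∈
      Submodule.span ℚ ((fun t => nm m (qv m t)) '' (T : Set ℕ)) ^ (n - k * m) * A1 m m ^ (k * m) := by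
  obtain ⟨t₀, ht₀, hle⟩ : ∃ t ∈ T, k * (m - 1) ≤ γ t := by
    refine Finset.exists_le_of_sum_le (f := fun _ => k * (m - 1)) hT ?_
    rw [Finset.sum_const, smul_eq_mul, hγ]
    omega
  have hkm : k * (m - 1) + k = k * m := by
    obtain ⟨j, rfl⟩ : ∃ j, m = j + 1 := ⟨m - 1, by omega⟩
    rw [Nat.add_sub_cancel]
    ring
  have h1 : ∏ t ∈ T, nm m (qv m t) ^ γ t =
      (nm m (qv m t₀) ^ (γ t₀ - k * (m - 1)) * ∏ t ∈ T.erase t₀, nm m (qv m t) ^ γ t) *
        nm m (qv m t₀) ^ (k * (m - 1)) := by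
    rw [← Finset.mul_prod_erase T (fun t => nm m (qv m t) ^ γ t) ht₀]
    have h2 : nm m (qv m t₀) ^ γ t₀ =
        nm m (qv m t₀) ^ (γ t₀ - k * (m - 1)) * nm m (qv m t₀) ^ (k * (m - 1)) := by
      rw [← pow_add, Nat.sub_add_cancel hle]
    simp only [h2]
    ring
  have h3 : γ t₀ - k * (m - 1) + ∑ t ∈ T.erase t₀, γ t = n - k * m := by
    have h4 := Finset.add_sum_erase T γ ht₀
    omega
  rw [h1, mul_assoc]
  refine Submodule.mul_mem_mul ?_ (loc m m k hm (qv m t₀) (fhC_qv_ne m hm t₀) g hg)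
  rw [← h3, pow_add]
  have hmem : ∀ t ∈ T, nm m (qv m t) ∈
      Submodule.span ℚ ((fun t => nm m (qv m t)) '' (T : Set ℕ)) := by
    intro t ht
    exact Submodule.subset_span ⟨t, ht, rfl⟩
  refine Submodule.mul_mem_mul (Submodule.pow_mem_pow _ (hmem t₀ ht₀) _) ?_
  exact fhC_prod_mem _ _ _ _ fun t ht => hmem t (mem_of_mem_erase ht)

theorem fhC_diag (m n : ℕ) : (∏ i : Fin m, X (i, i) ^ n : MvPolynomial (Fin m × Fin m) ℚ) ∈
    RH m (fun _ : Fin m => n) := by
  have h1 : (∏ i : Fin m, X (i, i) ^ n : MvPolynomial (Fin m × Fin m) ℚ) =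
      monomial (∑ i : Fin m, Finsupp.single (i, i) n) 1 := by
    rw [monomial_sum_one]
    refine Finset.prod_congr rfl fun i _ => ?_
    rw [X_pow_eq_monomial]
  have h2 := monomial_mem_RH (m := m) (r := m) (∑ i : Fin m, Finsupp.single (i, i) n) 1
  rw [← h1] at h2
  have h3 : rdeg (∑ i : Fin m, Finsupp.single (i, i) n) = fun _ : Fin m => n := by
    funext i
    unfold rdeg
    simp only [Finsupp.finsetSum_apply]
    rw [Finset.sum_eq_single i]
    · rw [Finset.sum_eq_single i]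
      · exact Finsupp.single_eq_same
      · intro b _ hb
        refine Finsupp.single_eq_of_ne ?_
        intro h
        exact hb (congrArg Prod.fst h).symm
      · intro h
        exact absurd (mem_univ i) h
    · intro j _ hj
      refine Finset.sum_eq_zero fun l _ => ?_
      refine Finsupp.single_eq_of_ne ?_
      intro h
      apply hj
      have e1 := congrArg Prod.fst h
      have e2 := congrArg Prod.snd h
      simp only at e1 e2
      rw [e2, e1]
    · intro h
      exact absurd (mem_univ i) h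
  rwa [h3] at h2

theorem fhC (m n k : ℕ) (hm : 1 ≤ m) (hk : k = (m - 1) * (m - 1)) (T : Finset ℕ)
    (hT : T.card = m * (m - 1) + 1) (hn : k + T.card * (k * (m - 1)) ≤ n) :
    T0 m n ∈
      Submodule.span ℚ ((fun t => nm m (qv m t)) '' (T : Set ℕ)) ^ (n - k * m) * A1 m m ^ (k * m) := by
  have hTn : T.Nonempty := by
    rw [← Finset.card_pos]
    omega
  have hkn : k ≤ n := le_trans (Nat.le_add_right _ _) hn
  have h1 := RH_iterC m m n T (by omega) (by rw [← hk]; exact hkn) (fhC_diag m n)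
  rw [← hk] at h1
  rw [← sy_T0]
  have hQA : Submodule.span ℚ ((fun t => nm m (qv m t)) '' (T : Set ℕ)) ≤ A1 m m := by
    unfold A1
    refine Submodule.span_mono ?_
    rintro _ ⟨t, _, rfl⟩
    exact ⟨qv m t, rfl⟩
  refine Submodule.mul_induction_on (C := fun z => sy m m z ∈
      Submodule.span ℚ ((fun t => nm m (qv m t)) '' (T : Set ℕ)) ^ (n - k * m) * A1 m m ^ (k * m))
    h1 ?_ ?_
  · intro x hx y hy
    have hxA : x ∈ A1 m m ^ (n - k) := (pow_le_pow_left' hQA _) hx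
    rw [sy_mul m m (n - k) x y hxA]
    have h2 := sy_mem m m k y hy
    have h3 := pow_span T (fun t => nm m (qv m t)) (n - k) hx
    have h4 := Submodule.mul_mem_mul h3 h2
    rw [Submodule.span_mul_span] at h4
    refine Submodule.span_le.2 ?_ h4
    rintro _ ⟨a, ⟨γ, hγ, rfl⟩, b, ⟨g, hg, rfl⟩, rfl⟩
    exact fhC_mul m n k hm T hTn hn γ hγ g hg
  · intro x y hx hy
    rw [map_add]
    exact Submodule.add_mem _ hx hy

end Helper87.TA
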