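import Mathlib
import Pool.Agent.Helper87.TR.St.T25
import Pool.Agent.Helper87.TR.St.T26
import Pool.Agent.Helper87.TA.St.Interp

/-!
# TA-Bin: the theorem on binary forms

`span_ww_of m a c ha hc (fun f hf => span_ww_self m a hm ha f (by ..))` (files `TR/St/T26.lean`, `TR/St/T25.lean`) says that
every homogeneous polynomial of degree `c a` in `X_0, ..., X_m` is in the span of the products `∏ j : Fin c, ww m a (β j)`, where
`ww m a k` is the coefficient of `T^k` in `(∑ X_i T^i)^a`.  Apply this to `X_0^e X_m^d` and map it to `S` by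
`MvPolynomial.aeval (fun i => X i)`.  The image of `ww m a k` is the `k`-th coefficient of the polynomial
`(∑_{i ≤ m} X_i T^i)^a` over `S`, which is in `W = span {(∑ t^i X_i)^a}` by `interp`; a product of `c` elements of `W` is
in `W^c` (e.g. `Submodule.prod_mem_prod`-type lemma or induction over `Fin c`).
-/

set_option autoImplicit false

open Finset

namespace Helper87.TA

open Helper87.TR

/-- the image of `ww m a k` is a coefficient of the power of the specialized polynomial -/
private lemma bin_ww {S : Type*} [CommRing S] [Algebra ℚ S] (m a k : ℕ) (X : ℕ → S) :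
    MvPolynomial.aeval (fun i : Fin (m + 1) => X i) (ww m a k) =
      ((∑ i ∈ range (m + 1), Polynomial.C (X i) * Polynomial.X ^ i : Polynomial S) ^ a).coeff k := by
  have h1 : MvPolynomial.aeval (fun i : Fin (m + 1) => X i) (ww m a k) =
      (Polynomial.map (MvPolynomial.aeval (fun i : Fin (m + 1) => X i) :
        MvPolynomial (Fin (m + 1)) ℚ →ₐ[ℚ] S).toRingHom
        ((∑ i : Fin (m + 1), Polynomial.C (MvPolynomial.X i) * Polynomial.X ^ (i : ℕ) :
    Polynomial (MvPolynomial (Fin (m + 1)) ℚ)) ^ a)).coeff k := by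
    rw [Polynomial.coeff_map]
    rfl
  rw [h1, Polynomial.map_pow, Polynomial.map_sum, Finset.sum_range]
  congr 2
  refine sum_congr rfl fun i _ => ?_
  rw [Polynomial.map_mul, Polynomial.map_C, Polynomial.map_pow, Polynomial.map_X]
  congr 2
  exact MvPolynomial.aeval_X _ i

/-- the image of `ww m a k` is in the span of the values -/
private lemma bin_ww_mem {S : Type*} [CommRing S] [Algebra ℚ S] (m a k : ℕ) (X : ℕ → S) :
    MvPolynomial.aeval (fun i : Fin (m + 1) => X i) (ww m a k) ∈
      Submodule.span ℚ (Set.range fun t : ℚ =>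
        (∑ i ∈ range (m + 1), algebraMap ℚ S t ^ i * X i) ^ a) := by
  rw [bin_ww]
  apply interp
  intro t
  refine Submodule.subset_span ⟨t, ?_⟩
  simp only [Polynomial.eval_pow, Polynomial.eval_finsetSum, Polynomial.eval_mul, Polynomial.eval_C,
    Polynomial.eval_X]
  congr 1
  exact sum_congr rfl fun i _ => mul_comm _ _

/-- products of `c` members of a submodule are in its `c`-th power -/
private lemma bin_prod {S : Type*} [CommRing S] [Algebra ℚ S] (W : Submodule ℚ S) :
    ∀ (c : ℕ) (g : Fin c → S), (∀ j, g j ∈ W) → ∏ j, g j ∈ W ^ c := by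
  intro c
  induction c with
  | zero =>
    intro g _
    rw [Finset.univ_eq_empty, Finset.prod_empty, pow_zero]
    exact Submodule.one_le.1 le_rfl
  | succ c ih =>
    intro g hg
    rw [Fin.prod_univ_succ, pow_succ']
    exact Submodule.mul_mem_mul (hg 0) (ih _ fun j => hg _)

theorem bin {S : Type*} [CommRing S] [Algebra ℚ S] (m a c : ℕ) (hm : 1 ≤ m) (ha : 1 ≤ a) (hc : m ≤ c)
    (X : ℕ → S) (e d : ℕ) (he : e + d = a * c) :
    X 0 ^ e * X m ^ d ∈ (Submodule.span ℚ (Set.range fun t : ℚ =>
      (∑ i ∈ range (m + 1), algebraMap ℚ S t ^ i * X i) ^ a)) ^ c := by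
  set W := Submodule.span ℚ (Set.range fun t : ℚ =>
      (∑ i ∈ range (m + 1), algebraMap ℚ S t ^ i * X i) ^ a) with hW
  have h0 : ((MvPolynomial.X 0 : MvPolynomial (Fin (m + 1)) ℚ) ^ e * MvPolynomial.X (Fin.last m) ^ d).IsHomogeneous
      (c * a) := by
    have h1 := ((MvPolynomial.isHomogeneous_X ℚ (0 : Fin (m + 1))).pow e).mul
      ((MvPolynomial.isHomogeneous_X ℚ (Fin.last m)).pow d)
    rwa [one_mul, one_mul, he, mul_comm a c] at h1
  have h1 := span_ww_of m a c ha hc (fun f hf => span_ww_self m a hm ha f hf) _ h0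
  have h2 : Submodule.span ℚ (Set.range fun β : Fin c → ℕ => ∏ j, ww m a (β j)) ≤
      (W ^ c).comap (MvPolynomial.aeval (fun i : Fin (m + 1) => X i) :
        MvPolynomial (Fin (m + 1)) ℚ →ₐ[ℚ] S).toLinearMap := by
    rw [Submodule.span_le]
    rintro _ ⟨β, rfl⟩
    rw [SetLike.mem_coe, Submodule.mem_comap]
    change MvPolynomial.aeval (fun i : Fin (m + 1) => X i) (∏ j, ww m a (β j)) ∈ W ^ c
    rw [map_prod]
    exact bin_prod W c _ fun j => bin_ww_mem m a (β j) X
  have h3 := h2 h1
  rw [Submodule.mem_comap] at h3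
  have h4 : (MvPolynomial.aeval (fun i : Fin (m + 1) => X i) :
        MvPolynomial (Fin (m + 1)) ℚ →ₐ[ℚ] S).toLinearMap
      ((MvPolynomial.X 0 : MvPolynomial (Fin (m + 1)) ℚ) ^ e * MvPolynomial.X (Fin.last m) ^ d) =
      X 0 ^ e * X m ^ d := by
    change MvPolynomial.aeval (fun i : Fin (m + 1) => X i) _ = _
    rw [map_mul, map_pow, map_pow, MvPolynomial.aeval_X, MvPolynomial.aeval_X]
    rfl
  rwa [h4] at h3

end Helper87.TA
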