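import Mathlib
import Pool.Agent.Helper87.TA.Defs
import Pool.Agent.Helper87.TA.St.Bin

/-!
# TA-Two: two norms

Let `Q = ∏_i (C (lin x i) + T * C (lin y i))`, a polynomial in `T` of degree at most `m`, and `X_i = Q.coeff i`.  Then
`X_0 = nm m x`, `X_m = nm m y`, and `∑_{i ≤ m} t^i X_i = Q.eval t = nm m (x + t y)` (`lin` is linear in `w`).  Use `bin` and
`Submodule.pow_le_pow_left`-type monotonicity (`span {nm (x + t y)^a : t} ≤ Pa m r a`).
-/

set_option autoImplicit false

open MvPolynomial Finset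

namespace Helper87.TA

/-- `lin` is linear in the coefficients -/
private lemma two_lin {m r : ℕ} (x y : Fin r → ℚ) (t : ℚ) (i : Fin m) :
    lin (fun j => x j + t * y j) i = (lin x i : MvPolynomial (Fin m × Fin r) ℚ) + C t * lin y i := by
  unfold lin
  rw [Finset.mul_sum, ← Finset.sum_add_distrib]
  refine Finset.sum_congr rfl fun j _ => ?_
  rw [C_add, C_mul]
  ring

/-- the polynomial in `T` -/
private noncomputable def twoQ {m r : ℕ} (x y : Fin r → ℚ) :
    Polynomial (MvPolynomial (Fin m × Fin r) ℚ) :=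
  ∏ i : Fin m, (Polynomial.C (lin x i) + Polynomial.X * Polynomial.C (lin y i))

private lemma twoQ_factor_natDegree {m r : ℕ} (x y : Fin r → ℚ) (i : Fin m) :
    (Polynomial.C (lin x i : MvPolynomial (Fin m × Fin r) ℚ) +
      Polynomial.X * Polynomial.C (lin y i)).natDegree ≤ 1 := by
  refine (Polynomial.natDegree_add_le _ _).trans (max_le ?_ ?_)
  · rw [Polynomial.natDegree_C]; exact Nat.zero_le _
  · exact (Polynomial.natDegree_mul_C_le _ _).trans Polynomial.natDegree_X_le

private lemma twoQ_natDegree {m r : ℕ} (x y : Fin r → ℚ) :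
    (twoQ (m := m) x y).natDegree ≤ m := by
  have h1 := Polynomial.natDegree_prod_le (univ : Finset (Fin m))
    (fun i : Fin m => Polynomial.C (lin x i : MvPolynomial (Fin m × Fin r) ℚ) +
      Polynomial.X * Polynomial.C (lin y i))
  have h2 : ∑ i : Fin m, (Polynomial.C (lin x i : MvPolynomial (Fin m × Fin r) ℚ) +
      Polynomial.X * Polynomial.C (lin y i)).natDegree ≤ ∑ _i : Fin m, 1 :=
        Finset.sum_le_sum fun i _ => twoQ_factor_natDegree x y i
  have h3 : ∑ _i : Fin m, 1 = m := by simp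
  exact (h1.trans h2).trans h3.le

private lemma twoQ_coeff_zero {m r : ℕ} (x y : Fin r → ℚ) :
    (twoQ (m := m) x y).coeff 0 = nm m x := by
  rw [Polynomial.coeff_zero_eq_eval_zero, twoQ, Polynomial.eval_prod, nm]
  refine Finset.prod_congr rfl fun i _ => ?_
  simp

private lemma twoQ_coeff_top {m r : ℕ} (x y : Fin r → ℚ) :
    (twoQ (m := m) x y).coeff m = nm m y := by
  have h := Polynomial.coeff_prod_of_natDegree_le (s := (univ : Finset (Fin m)))
    (fun i : Fin m => Polynomial.C (lin x i : MvPolynomial (Fin m × Fin r) ℚ) +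
      Polynomial.X * Polynomial.C (lin y i)) 1 fun i _ => twoQ_factor_natDegree x y i
  rw [Finset.card_univ, Fintype.card_fin, mul_one] at h
  rw [twoQ, h, nm]
  refine Finset.prod_congr rfl fun i _ => ?_
  rw [Polynomial.coeff_add, Polynomial.coeff_C_succ, zero_add, Polynomial.coeff_X_mul,
    Polynomial.coeff_C_zero]

private lemma twoQ_eval {m r : ℕ} (x y : Fin r → ℚ) (t : ℚ) :
    ∑ i ∈ range (m + 1), algebraMap ℚ (MvPolynomial (Fin m × Fin r) ℚ) t ^ i *
      (twoQ (m := m) x y).coeff i = nm m (fun j => x j + t * y j) := by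
  have h1 := Polynomial.eval_eq_sum_range' (p := twoQ (m := m) x y)
    (Nat.lt_succ_of_le (twoQ_natDegree x y)) (algebraMap ℚ (MvPolynomial (Fin m × Fin r) ℚ) t)
  have h2 : (twoQ (m := m) x y).eval (algebraMap ℚ (MvPolynomial (Fin m × Fin r) ℚ) t) =
      nm m (fun j => x j + t * y j) := by
    rw [twoQ, Polynomial.eval_prod, nm]
    refine Finset.prod_congr rfl fun i _ => ?_
    rw [two_lin, Polynomial.eval_add, Polynomial.eval_mul, Polynomial.eval_C, Polynomial.eval_X,
      Polynomial.eval_C]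
    rfl
  rw [← h2, h1]
  exact Finset.sum_congr rfl fun i _ => mul_comm _ _

theorem two (m r a c : ℕ) (hm : 1 ≤ m) (ha : 1 ≤ a) (hc : m ≤ c) (x y : Fin r → ℚ) (e d : ℕ)
    (he : e + d = a * c) : nm m x ^ e * nm m y ^ d ∈ (Pa m r a) ^ c := by
  have h := bin (S := MvPolynomial (Fin m × Fin r) ℚ) m a c hm ha hc
    (fun i => (twoQ (m := m) x y).coeff i) e d he
  rw [twoQ_coeff_zero, twoQ_coeff_top] at h
  refine pow_le_pow_left' (?_ : _ ≤ Pa m r a) c h
  rw [Submodule.span_le]
  rintro _ ⟨t, rfl⟩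
  refine Submodule.subset_span ⟨fun j => x j + t * y j, ?_⟩
  change nm m (fun j => x j + t * y j) ^ a = _
  rw [← twoQ_eval]

end Helper87.TA
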