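import Mathlib
import Pool.Agent.Helper87.TA.Defs
import Pool.Agent.Helper87.TA.St.Two
import Pool.Agent.Helper87.TA.St.Pow

/-!
# TA-Tile: monomials in few norms

`N = ∏_{i ∈ s} nm (w i) ^ d i`, `∑ d i = a c`, `c ≥ m (|s| - 1)`: then `N ∈ (Pa)^c`.  Induction on `|s|`: let `d t` be the smallest exponent, `d q` the
largest of the others.  Remove `x` factors `nm (w t) ^ a` so that the remaining exponent `d'` of `nm (w t)` is at most `m a`, and the factor
`nm (w t) ^ d' * nm (w q) ^ (m a - d')`, which is in `(Pa)^m` by `two`.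
-/

set_option autoImplicit false

open MvPolynomial Finset

namespace Helper87.TA

theorem tile (m r a : ℕ) (hm : 1 ≤ m) (ha : 1 ≤ a) {ι : Type*} [DecidableEq ι] (w : ι → Fin r → ℚ) :
    ∀ (k c : ℕ) (s : Finset ι) (d : ι → ℕ), s.card = k + 1 → ∑ i ∈ s, d i = a * c → m * k ≤ c →
      ∏ i ∈ s, nm m (w i) ^ d i ∈ (Pa m r a) ^ c := by
  have hmem : ∀ i, nm m (w i) ^ a ∈ Pa m r a := fun i =>
    Submodule.subset_span (Set.mem_range_self (f := fun w : Fin r → ℚ => nm m w ^ a) (w i))
  intro k
  induction k with
  | zero =>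
    intro c s d hs hd _
    obtain ⟨i, rfl⟩ := Finset.card_eq_one.1 hs
    rw [Finset.sum_singleton] at hd
    rw [Finset.prod_singleton, hd, pow_mul]
    exact Submodule.pow_mem_pow _ (hmem i) c
  | succ k ih =>
    intro c s d hs hd hc
    have hs0 : s.Nonempty := by rw [← Finset.card_pos]; omega
    obtain ⟨t, ht, hmin⟩ := Finset.exists_min_image s d hs0
    set s' := s.erase t with hs'
    have hcard : s'.card = k + 1 := by
      have h0 := Finset.card_erase_add_one ht
      rw [← hs'] at h0
      omega
    have hs0' : s'.Nonempty := by rw [← Finset.card_pos]; omega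
    obtain ⟨q, hq, hmax⟩ := Finset.exists_max_image s' d hs0'
    have hsum : d t + ∑ i ∈ s', d i = a * c := by
      rw [← hd, hs']
      exact Finset.add_sum_erase s d ht
    have hsq : ∑ i ∈ s', d i ≤ (k + 1) * d q := by
      calc ∑ i ∈ s', d i ≤ ∑ _i ∈ s', d q := Finset.sum_le_sum fun i hi => hmax i hi
        _ = (k + 1) * d q := by rw [Finset.sum_const, smul_eq_mul, hcard]
    have hst : (k + 1) * d t ≤ ∑ i ∈ s', d i := by
      calc (k + 1) * d t = ∑ _i ∈ s', d t := by rw [Finset.sum_const, smul_eq_mul, hcard]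
        _ ≤ ∑ i ∈ s', d i := Finset.sum_le_sum fun i hi => hmin i (Finset.mem_of_mem_erase hi)
    have hac : m * (k + 1) * a ≤ a * c := by
      rw [Nat.mul_comm a c]
      exact Nat.mul_le_mul_right _ hc
    -- the key numbers
    obtain ⟨x, d', hx, hd', hxc, he⟩ : ∃ x d' : ℕ, d t = a * x + d' ∧ d' ≤ m * a ∧
        m * (k + 1) + x ≤ c ∧ m * a - d' ≤ d q := by
      by_cases h1 : d t ≤ m * a
      · refine ⟨0, d t, by omega, h1, by omega, ?_⟩
        by_contra h2
        have h3 : d q + d t + 1 ≤ m * a := by omega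
        have h4 : (k + 1) * (d q + d t + 1) ≤ (k + 1) * (m * a) := Nat.mul_le_mul_left _ h3
        have h5 : (k + 1) * (d q + d t + 1) = (k + 1) * d q + k * d t + d t + k + 1 := by ring
        have h6 : (k + 1) * (m * a) = m * (k + 1) * a := by ring
        omega
      · have h2 : m * a < d t := by omega
        have h3 := Nat.div_add_mod (d t - m * a + (a - 1)) a
        have h4 := Nat.mod_lt (d t - m * a + (a - 1)) (show 0 < a by omega)
        set x := (d t - m * a + (a - 1)) / a with hx
        have h5 : a * x ≤ d t := by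
          have h6 : a ≤ m * a := Nat.le_mul_of_pos_left a hm
          omega
        refine ⟨x, d t - a * x, by omega, by omega, ?_, ?_⟩
        · have h7 : m * (k + 1) * a < ∑ i ∈ s', d i := by
            refine lt_of_lt_of_le ?_ hst
            have h8 : m * (k + 1) * a = (k + 1) * (m * a) := by ring
            rw [h8]
            exact Nat.mul_lt_mul_of_pos_left h2 (Nat.succ_pos k)
          have h9 : (m * (k + 1) + x) * a ≤ c * a := by
            have h10 : (m * (k + 1) + x) * a = m * (k + 1) * a + a * x := by ring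
            have h11 : c * a = a * c := Nat.mul_comm _ _
            omega
          exact Nat.le_of_mul_le_mul_right h9 ha
        · have h12 : d t ≤ d q := hmin q (Finset.mem_of_mem_erase hq)
          omega
    set e := m * a - d' with hedef
    obtain ⟨c', hc'⟩ : ∃ c', c = x + m + c' := ⟨c - x - m, by
      have : m * (k + 1) = m * k + m := by ring
      omega⟩
    have hk' : m * k ≤ c' := by
      have : m * (k + 1) = m * k + m := by ring
      omega
    set d'' : ι → ℕ := fun i => if i = q then d q - e else d i with hd''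
    have hq' : d'' q = d q - e := if_pos rfl
    have hne : ∀ i ∈ s'.erase q, d'' i = d i := fun i hi => if_neg (Finset.ne_of_mem_erase hi)
    have hsum'' : ∑ i ∈ s', d'' i = a * c' := by
      have h1 : d'' q + ∑ i ∈ s'.erase q, d i = ∑ i ∈ s', d'' i := by
        rw [← Finset.sum_congr rfl hne]
        exact Finset.add_sum_erase s' d'' hq
      have h2 : d q + ∑ i ∈ s'.erase q, d i = ∑ i ∈ s', d i := Finset.add_sum_erase s' d hq
      have h3 : a * c = a * x + m * a + a * c' := by rw [hc']; ring
      rw [hq'] at h1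
      omega
    have h1 := ih c' s' d'' hcard hsum'' hk'
    have h2 : nm m (w t) ^ d' * nm m (w q) ^ e ∈ (Pa m r a) ^ m :=
      two m r a m hm ha le_rfl (w t) (w q) d' e (by rw [Nat.mul_comm a m]; omega)
    have hprod : ∏ i ∈ s, nm m (w i) ^ d i = (nm m (w t) ^ a) ^ x *
        (nm m (w t) ^ d' * nm m (w q) ^ e) * ∏ i ∈ s', nm m (w i) ^ d'' i := by
      have h4 : ∏ i ∈ s'.erase q, nm m (w i) ^ d'' i = ∏ i ∈ s'.erase q, nm m (w i) ^ d i :=
        Finset.prod_congr rfl (fun i hi => by rw [hne i hi])
      rw [← Finset.mul_prod_erase s _ ht, ← hs', ← Finset.mul_prod_erase s' _ hq,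
        ← Finset.mul_prod_erase s' (fun i => nm m (w i) ^ d'' i) hq, h4, hq']
      have h3 : nm m (w q) ^ d q = nm m (w q) ^ e * nm m (w q) ^ (d q - e) := by
        rw [← pow_add]
        congr 1
        omega
      rw [h3, hx, pow_add, pow_mul]
      ring
    rw [hprod, hc', pow_add, pow_add]
    exact Submodule.mul_mem_mul (Submodule.mul_mem_mul (Submodule.pow_mem_pow _ (hmem t) x) h2) h1

end Helper87.TA
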