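import Mathlib
import Pool.Agent.Helper87.TA.Defs

/-!
# TA-TrJ: set partitions from labellings; the equivariant map `J`

* `mkP`: the fibres of a balanced map `κ : Fin N → ι` (`s ≥ 1`, `|ι| = b`) are a set partition into `b` blocks of size `s` (the fibres are
  non-empty and disjoint, so `i ↦ fibre` is injective and `(fibs κ).card = |ι|`, `Finset.card_image_of_injective`).
* `fibs_perm`: `imP g (fibs κ) = fibs (κ ∘ g⁻¹)`.  `fibs_comp`: relabelling does not change the fibres.
* `exists_lab`: every set partition is `fibs κ` for a balanced `κ` (`Finset.equivFin`-type enumeration of the blocks; `κ x` is the index of the block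
  containing `x`).
* `exists_perm`: if `fibs κ = fibs κ'` (fibres non-empty) then `κ' = ρ ∘ κ` for a permutation `ρ` of the labels.
* `Jm`, `Jm_act`: reindex the sum by `g ↦ h g`.
-/

set_option autoImplicit false

open Finset

namespace Helper87.TA

open Helper87.TR

theorem trj_mem {N : ℕ} {ι : Type*} [Fintype ι] [DecidableEq ι] {κ : Fin N → ι}
    {B : Finset (Fin N)} : B ∈ fibs κ ↔ ∃ i, (univ.filter fun x => κ x = i) = B := by
  rw [fibs, mem_image]
  constructor
  · rintro ⟨i, -, h⟩; exact ⟨i, h⟩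
  · rintro ⟨i, h⟩; exact ⟨i, mem_univ _, h⟩

theorem trj_inj {N s : ℕ} {ι : Type*} [Fintype ι] [DecidableEq ι] (hs : 1 ≤ s)
    (κ : Fin N → ι) (hκ : Bal s κ) :
    Function.Injective fun i => univ.filter fun x => κ x = i := by
  intro i j h
  have h1 : (univ.filter fun x => κ x = i).Nonempty := by
    rw [← card_pos, hκ i]
    exact hs
  obtain ⟨x, hx⟩ := h1
  have h2 : x ∈ univ.filter fun x => κ x = j := by
    have h3 : (univ.filter fun x => κ x = i) = univ.filter fun x => κ x = j := h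
    rw [← h3]
    exact hx
  rw [mem_filter] at hx h2
  exact hx.2.symm.trans h2.2

theorem fibs_isPart {N b s : ℕ} {ι : Type*} [Fintype ι] [DecidableEq ι] (hs : 1 ≤ s)
    (hι : Fintype.card ι = b) (κ : Fin N → ι) (hκ : Bal s κ) :
    (fibs κ).card = b ∧ (∀ B ∈ fibs κ, B.card = s) ∧ ∀ x : Fin N, ∃! B, B ∈ fibs κ ∧ x ∈ B := by
  refine ⟨?_, ?_, ?_⟩
  · rw [fibs, card_image_of_injective _ (trj_inj hs κ hκ), card_univ, hι]
  · intro B hB
    obtain ⟨i, rfl⟩ := trj_mem.1 hB
    exact hκ i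
  · intro x
    refine ⟨univ.filter fun y => κ y = κ x, ⟨trj_mem.2 ⟨κ x, rfl⟩, by simp⟩, ?_⟩
    rintro B ⟨hB, hx⟩
    obtain ⟨i, rfl⟩ := trj_mem.1 hB
    rw [mem_filter] at hx
    rw [hx.2]

/-- the set partition into the fibres of a balanced map -/
def mkP {N b s : ℕ} {ι : Type*} [Fintype ι] [DecidableEq ι] (hs : 1 ≤ s)
    (hι : Fintype.card ι = b) (κ : Fin N → ι) (hκ : Bal s κ) : SetPart N b s :=
  ⟨fibs κ, fibs_isPart hs hι κ hκ⟩

theorem fibs_perm {N : ℕ} {ι : Type*} [Fintype ι] [DecidableEq ι] (g : Equiv.Perm (Fin N))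
    (κ : Fin N → ι) : imP g (fibs κ) = fibs fun x => κ (g.symm x) := by
  ext B
  rw [mem_imP, trj_mem, trj_mem]
  refine exists_congr fun i => ?_
  constructor
  · intro h
    ext x
    have h1 := Finset.ext_iff.1 h (g.symm x)
    simpa using h1
  · intro h
    ext x
    have h1 := Finset.ext_iff.1 h (g x)
    simpa using h1

theorem fibs_comp {N : ℕ} {ι : Type*} [Fintype ι] [DecidableEq ι] (ρ : Equiv.Perm ι)
    (κ : Fin N → ι) : (fibs fun x => ρ (κ x)) = fibs κ := by
  ext B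
  rw [trj_mem, trj_mem]
  constructor
  · rintro ⟨i, rfl⟩
    refine ⟨ρ.symm i, ?_⟩
    ext x
    simp [Equiv.eq_symm_apply]
  · rintro ⟨i, rfl⟩
    refine ⟨ρ i, ?_⟩
    ext x
    simp

theorem exists_lab {N b s : ℕ} (P : SetPart N b s) : ∃ κ : Fin N → Fin b, Bal s κ ∧ P.1 = fibs κ := by
  obtain ⟨P, h1, h2, h3⟩ := P
  have h3' : ∀ x, ∃! B, B ∈ P ∧ x ∈ B := h3
  choose bl hbl hu using h3'
  have e := P.equivFinOfCardEq h1
  have hfib : ∀ i : Fin b, (univ.filter fun x => e ⟨bl x, (hbl x).1⟩ = i) = (e.symm i).1 := by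
    intro i
    ext x
    rw [mem_filter, ← Equiv.eq_symm_apply]
    constructor
    · rintro ⟨-, h⟩
      rw [← h]
      exact (hbl x).2
    · intro h
      refine ⟨mem_univ _, Subtype.ext ?_⟩
      exact (hu x _ ⟨(e.symm i).2, h⟩).symm
  refine ⟨fun x => e ⟨bl x, (hbl x).1⟩, ?_, ?_⟩
  · intro i
    rw [hfib]
    exact h2 _ (e.symm i).2
  · ext B
    rw [trj_mem]
    constructor
    · intro hB
      refine ⟨e ⟨B, hB⟩, ?_⟩
      rw [hfib, Equiv.symm_apply_apply]
    · rintro ⟨i, rfl⟩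
      rw [hfib]
      exact (e.symm i).2

theorem exists_perm {N s : ℕ} {ι : Type*} [Fintype ι] [DecidableEq ι] (hs : 1 ≤ s)
    (κ κ' : Fin N → ι) (hκ : Bal s κ) (hκ' : Bal s κ') (h : fibs κ = fibs κ') :
    ∃ ρ : Equiv.Perm ι, ∀ x, κ' x = ρ (κ x) := by
  have hex : ∀ i, ∃ j, (univ.filter fun x => κ' x = j) = univ.filter fun x => κ x = i := by
    intro i
    have h1 : (univ.filter fun x => κ x = i) ∈ fibs κ' := by
      rw [← h]
      exact trj_mem.2 ⟨i, rfl⟩
    exact trj_mem.1 h1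
  choose r hr using hex
  have hinj : Function.Injective r := by
    intro i i' hi
    apply trj_inj hs κ hκ
    change (univ.filter fun x => κ x = i) = univ.filter fun x => κ x = i'
    rw [← hr i, ← hr i', hi]
  refine ⟨Equiv.ofBijective r (Finite.injective_iff_bijective.1 hinj), fun x => ?_⟩
  have h1 : x ∈ univ.filter fun y => κ' y = r (κ x) := by
    rw [hr]
    simp
  rw [mem_filter] at h1
  exact h1.2

/-- the equivariant map given by a pair of set partitions `P₀`, `Q₀` -/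
noncomputable def Jm {N b s b' s' : ℕ} (P₀ : SetPart N b s) (Q₀ : SetPart N b' s') :
    (SetPart N b s → ℂ) →ₗ[ℂ] (SetPart N b' s' → ℂ) where
  toFun F Q := ∑ g : Equiv.Perm (Fin N), if g • Q₀ = Q then F (g • P₀) else 0
  map_add' F F' := by
    funext Q
    rw [Pi.add_apply, ← sum_add_distrib]
    refine sum_congr rfl fun g _ => ?_
    split_ifs
    · rfl
    · rw [add_zero]
  map_smul' c F := by
    funext Q
    rw [Pi.smul_apply, RingHom.id_apply, smul_eq_mul, mul_sum]
    refine sum_congr rfl fun g _ => ?_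
    split_ifs
    · rfl
    · rw [mul_zero]

theorem Jm_act {N b s b' s' : ℕ} (P₀ : SetPart N b s) (Q₀ : SetPart N b' s') (h : Equiv.Perm (Fin N))
    (F : SetPart N b s → ℂ) : Jm P₀ Q₀ (act h F) = act h (Jm P₀ Q₀ F) := by
  funext Q
  change (∑ g : Equiv.Perm (Fin N), if g • Q₀ = Q then F (h⁻¹ • (g • P₀)) else 0) =
    ∑ g : Equiv.Perm (Fin N), if g • Q₀ = h⁻¹ • Q then F (g • P₀) else 0
  refine Fintype.sum_equiv (Equiv.mulLeft h⁻¹) _ _ fun g => ?_
  rw [Equiv.coe_mulLeft, mul_smul, mul_smul]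
  by_cases h1 : g • Q₀ = Q
  · rw [if_pos h1, if_pos (by rw [h1])]
  · rw [if_neg h1, if_neg]
    intro h2
    exact h1 (MulAction.injective h⁻¹ h2)

end Helper87.TA
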