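import Mathlib
import Pool.Agent.Helper87.TA.Defs

/-!
# TA-TrC: a functional on polynomials

`Phi F` is the linear functional `G ↦ ∑_κ F (fibs κ) * (coefficient of ∏_k X (κ k, k) in G)`, over all maps `κ : Fin N → Fin m`.
`Phi_prod`: expand the product over `ι` (`Finset.prod_univ_sum`, `Fintype.piFinset_univ`):
`∏_ι ∑_k .. = ∑_{φ : I → Fin N} (∏_ι cc ι (φ ι)) ∏_ι X (ii ι, φ ι)`; the coefficient of `∏_k X (κ k, k)` in `∏_ι X (ii ι, φ ι)` is `1` if `φ` is
bijective and `κ (φ ι) = ii ι` for all `ι`, and `0` otherwise (compare exponents: the exponent of `(i, k)` in the second product is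
the number of `ι` with `φ ι = k`, `ii ι = i`; in the first it is `1` if `κ k = i`; note `|I| = N`, so it is enough that `φ` is surjective).
For a bijection `φ` the only `κ` is `ii ∘ φ⁻¹`.
-/

set_option autoImplicit false

open MvPolynomial Finset

namespace Helper87.TA

/-- the exponent vector of `∏_k X (κ k, k)` -/
noncomputable def mon {N m : ℕ} (κ : Fin N → Fin m) : Fin m × Fin N →₀ ℕ :=
  ∑ k, Finsupp.single (κ k, k) 1

/-- the functional -/
noncomputable def Phi {N m : ℕ} (F : Finset (Finset (Fin N)) → ℂ) :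
    MvPolynomial (Fin m × Fin N) ℂ →ₗ[ℂ] ℂ :=
  ∑ κ : Fin N → Fin m, F (fibs κ) • lcoeff ℂ (mon κ)

theorem trc_mon_apply {N m : ℕ} (κ : Fin N → Fin m) (i : Fin m) (k : Fin N) :
    mon κ (i, k) = if κ k = i then 1 else 0 := by
  unfold mon
  rw [Finsupp.finsetSum_apply, sum_eq_single k]
  · rw [Finsupp.single_apply]
    by_cases h : κ k = i
    · rw [if_pos h, if_pos (by rw [h])]
    · rw [if_neg h, if_neg fun h1 => h (Prod.ext_iff.1 h1).1]
  · intro b _ hb
    rw [Finsupp.single_apply, if_neg fun h1 => hb (Prod.ext_iff.1 h1).2]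
  · intro h
    exact absurd (mem_univ k) h

theorem trc_mon_eq_iff {N m : ℕ} {I : Type} [Fintype I] [DecidableEq I]
    (hI : Fintype.card I = N) (ii : I → Fin m) (φ : I → Fin N) (κ : Fin N → Fin m) :
    (∑ ι, Finsupp.single (ii ι, φ ι) 1 : Fin m × Fin N →₀ ℕ) = mon κ ↔
      Function.Bijective φ ∧ ∀ ι, κ (φ ι) = ii ι := by
  constructor
  · intro h
    have h1 : ∀ ι, κ (φ ι) = ii ι := by
      intro ι
      have h2 := DFunLike.congr_fun h (ii ι, φ ι)
      rw [trc_mon_apply, Finsupp.finsetSum_apply] at h2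
      by_contra h3
      rw [if_neg h3, sum_eq_zero_iff] at h2
      have h4 := h2 ι (mem_univ ι)
      rw [Finsupp.single_eq_same] at h4
      exact one_ne_zero h4
    refine ⟨?_, h1⟩
    have h5 : Function.Surjective φ := by
      intro k
      have h2 := DFunLike.congr_fun h (κ k, k)
      rw [trc_mon_apply, if_pos rfl, Finsupp.finsetSum_apply] at h2
      by_contra h3
      have h4 : ∑ ι, (Finsupp.single (ii ι, φ ι) 1 : Fin m × Fin N →₀ ℕ) (κ k, k) = 0 := by
        apply sum_eq_zero
        intro ι _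
        rw [Finsupp.single_apply, if_neg]
        intro h5
        exact h3 ⟨ι, (Prod.ext_iff.1 h5).2⟩
      rw [h4] at h2
      exact zero_ne_one h2
    exact (Fintype.bijective_iff_surjective_and_card φ).2 ⟨h5, by rw [hI, Fintype.card_fin]⟩
  · rintro ⟨h1, h2⟩
    unfold mon
    rw [← (Equiv.ofBijective φ h1).sum_comp]
    apply sum_congr rfl
    intro ι _
    rw [Equiv.ofBijective_apply, h2]

theorem trc_prod {N m : ℕ} {I : Type} [Fintype I] [DecidableEq I] (ii : I → Fin m)
    (cc : I → Fin N → ℂ) (φ : I → Fin N) :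
    (∏ ι, (C (cc ι (φ ι)) * X (ii ι, φ ι) : MvPolynomial (Fin m × Fin N) ℂ)) =
      monomial (∑ ι, Finsupp.single (ii ι, φ ι) 1) (∏ ι, cc ι (φ ι)) := by
  rw [monomial_sum_index]
  rw [prod_mul_distrib]
  congr 1
  rw [map_prod]

theorem Phi_prod {N m : ℕ} (F : Finset (Finset (Fin N)) → ℂ) {I : Type} [Fintype I] [DecidableEq I]
    (hI : Fintype.card I = N) (ii : I → Fin m) (cc : I → Fin N → ℂ) :
    Phi F (∏ ι, ∑ k, C (cc ι k) * X (ii ι, k)) =
      ∑ β : I ≃ Fin N, F (fibs fun x => ii (β.symm x)) * ∏ ι, cc ι (β ι) := by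
  classical
  rw [prod_univ_sum, Fintype.piFinset_univ, map_sum]
  symm
  apply Fintype.sum_of_injective (fun β : I ≃ Fin N => (β : I → Fin N)) DFunLike.coe_injective
  · intro φ hφ
    rw [trc_prod]
    unfold Phi
    rw [LinearMap.sum_apply]
    apply sum_eq_zero
    intro κ _
    rw [LinearMap.smul_apply, lcoeff_apply, coeff_monomial, if_neg, smul_zero]
    rw [trc_mon_eq_iff hI]
    rintro ⟨h1, _⟩
    exact hφ ⟨Equiv.ofBijective φ h1, rfl⟩
  · intro β
    rw [trc_prod]
    unfold Phi
    rw [LinearMap.sum_apply, sum_eq_single fun x => ii (β.symm x)]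
    · rw [LinearMap.smul_apply, lcoeff_apply, coeff_monomial, if_pos, smul_eq_mul]
      rw [trc_mon_eq_iff hI]
      exact ⟨β.bijective, fun ι => by rw [β.symm_apply_apply]⟩
    · intro κ _ hκ
      rw [LinearMap.smul_apply, lcoeff_apply, coeff_monomial, if_neg, smul_zero]
      rw [trc_mon_eq_iff hI]
      rintro ⟨_, h2⟩
      apply hκ
      funext x
      rw [← h2, β.apply_symm_apply]
    · intro h
      exact absurd (mem_univ _) h

end Helper87.TA
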