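import Mathlib
import Pool.Agent.Helper87.TA.Defs
import Pool.Agent.Helper87.TA.St.Pow
import Pool.Agent.Helper87.TA.St.TrC
import Pool.Agent.Helper87.TA.St.TrJ

/-!
# TA-TrL: from polynomials to set partitions

Let `κ₀` be balanced, `ψ : MvPolynomial (Fin m × Fin m) ℚ →ₐ[ℚ] MvPolynomial (Fin m × Fin N) ℂ`, `X (i, j) ↦ ∑_{k : κ₀ k = j} X (i, k)`.
* For `w : Fin c → (Fin m → ℚ)`, `ψ (∏_l nm m (w l) ^ a) = ∏_{(i, e, l)} ∑_k C (w l (κ₀ k)) X (i, k)` (`I = Fin m × Fin a × Fin c`), so `Phi_prod` and the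
  hypothesis `h` (with `ω l k = w l (κ₀ k)`, the sum over `β : I ≃ Fin N` reindexed by `β = β₀.trans g`; `∏_ι ω (l ι) (β ι) = ∏_k ω (l (β⁻¹ k)) k`) give
  `Phi F (ψ ..) = 0`.  With `pow_range`: `Phi F (ψ (T0 m n)) = 0`, `n = a c`.
* `ψ (T0 m n) = ∑_σ ∏_{(i, e) : Fin m × Fin n} ∑_k C [κ₀ k = σ i] X (i, k)`; by `Phi_prod` the term of `σ` is
  `∑_{β : Fin m × Fin n ≃ Fin N} F (fibs (fst ∘ β⁻¹)) ∏ [κ₀ (β ι) = σ (fst ι)]`; for the `β` that contribute, `fst ∘ β⁻¹ = σ⁻¹ ∘ κ₀`, which has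
  the same fibres as `κ₀`.  So `Phi F (ψ (T0 m n)) = M F (fibs κ₀)`, `M` the number of pairs `(σ, β)`, and `M ≥ 1`: `σ = 1` and a bijection `β`
  that maps `{i} × Fin n` onto the `i`-th fibre (it exists as `κ₀` is balanced; e.g. `Equiv.sigmaFiberEquiv κ₀` and
  `Fintype.equivFin` on the fibres).
-/

set_option autoImplicit false

open MvPolynomial Finset

namespace Helper87.TA

/-- the substitution `X (i, j) ↦ ∑_{k : κ₀ k = j} X (i, k)` -/
noncomputable def trl_psi {N m : ℕ} (κ₀ : Fin N → Fin m) :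
    MvPolynomial (Fin m × Fin m) ℚ →ₐ[ℚ] MvPolynomial (Fin m × Fin N) ℂ :=
  aeval fun p => ∑ k, C (if κ₀ k = p.2 then (1 : ℂ) else 0) * X (p.1, k)

theorem trl_X {N m : ℕ} (κ₀ : Fin N → Fin m) (i j : Fin m) :
    trl_psi κ₀ (X (i, j)) = ∑ k, C (if κ₀ k = j then (1 : ℂ) else 0) * X (i, k) := by
  rw [trl_psi, aeval_X]

theorem trl_C {N m : ℕ} (κ₀ : Fin N → Fin m) (q : ℚ) :
    trl_psi κ₀ (C q) = C (q : ℂ) := by
  rw [trl_psi, aeval_C]
  rfl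

theorem trl_lin {N m : ℕ} (κ₀ : Fin N → Fin m) (w : Fin m → ℚ) (i : Fin m) :
    trl_psi κ₀ (lin w i) = ∑ k, C (w (κ₀ k) : ℂ) * X (i, k) := by
  rw [lin, map_sum]
  simp only [map_mul, trl_X, trl_C, mul_sum]
  rw [sum_comm]
  refine sum_congr rfl fun k _ => ?_
  rw [sum_eq_single (κ₀ k)]
  · rw [if_pos rfl, C_1, one_mul]
  · intro j _ hj
    rw [if_neg (Ne.symm hj), C_0, zero_mul, mul_zero]
  · intro h
    exact absurd (mem_univ _) h

theorem trl_prod {N m a c : ℕ} (κ₀ : Fin N → Fin m) (w : Fin c → Fin m → ℚ) :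
    trl_psi κ₀ (∏ l, nm m (w l) ^ a) =
      ∏ ι : Fin m × Fin a × Fin c, ∑ k, C (w ι.2.2 (κ₀ k) : ℂ) * X (ι.1, k) := by
  rw [Fintype.prod_prod_type]
  simp only [Fintype.prod_prod_type, prod_const, card_univ, Fintype.card_fin]
  simp only [map_prod, map_pow, nm, trl_lin]
  rw [prod_pow, prod_comm, ← prod_pow]

theorem trl_zero {N m a c : ℕ} (β₀ : Fin m × Fin a × Fin c ≃ Fin N)
    (F : Finset (Finset (Fin N)) → ℂ)
    (h : ∀ ω : Fin c → Fin N → ℂ, ∑ g : Equiv.Perm (Fin N),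
      F (fibs fun x => (β₀.symm (g.symm x)).1) * ∏ k, ω (β₀.symm (g.symm k)).2.2 k = 0)
    (κ₀ : Fin N → Fin m) (w : Fin c → Fin m → ℚ) :
    Phi F (trl_psi κ₀ (∏ l, nm m (w l) ^ a)) = 0 := by
  have hI : Fintype.card (Fin m × Fin a × Fin c) = N := by
    rw [Fintype.card_congr β₀, Fintype.card_fin]
  rw [trl_prod, Phi_prod F hI (fun ι : Fin m × Fin a × Fin c => ι.1)
    (fun ι k => (w ι.2.2 (κ₀ k) : ℂ))]
  rw [← h fun l k => (w l (κ₀ k) : ℂ)]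
  symm
  refine Fintype.sum_bijective (fun g : Equiv.Perm (Fin N) => β₀.trans g) ?_ _ _ ?_
  · refine ⟨fun g g' hg => ?_, fun β => ⟨β₀.symm.trans β, ?_⟩⟩
    · have h1 : β₀.trans g = β₀.trans g' := hg
      refine Equiv.ext fun x => ?_
      have h2 := congrArg (fun e : Fin m × Fin a × Fin c ≃ Fin N => e (β₀.symm x)) h1
      simpa using h2
    · ext x
      simp
  · intro g
    congr 1
    rw [← (β₀.trans g).prod_comp]
    refine prod_congr rfl fun ι _ => ?_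
    simp

theorem trl_beta {N m n : ℕ} (κ₀ : Fin N → Fin m) (hκ : Bal n κ₀) :
    ∃ β : Fin m × Fin n ≃ Fin N, ∀ ι, κ₀ (β ι) = ι.1 := by
  have e : ∀ i : Fin m, Nonempty (Fin n ≃ {x // κ₀ x = i}) := by
    intro i
    refine ⟨(Fintype.equivFinOfCardEq ?_).symm⟩
    rw [Fintype.card_subtype]
    exact hκ i
  refine ⟨(Equiv.sigmaEquivProd (Fin m) (Fin n)).symm.trans
    ((Equiv.sigmaCongrRight fun i => (e i).some).trans (Equiv.sigmaFiberEquiv κ₀)), ?_⟩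
  rintro ⟨i, x⟩
  exact ((e i).some x).2

theorem trl_T0 {N m n : ℕ} (κ₀ : Fin N → Fin m) :
    trl_psi κ₀ (T0 m n) = ∑ σ : Equiv.Perm (Fin m), ∏ ι : Fin m × Fin n,
      ∑ k, C (if κ₀ k = σ ι.1 then (1 : ℂ) else 0) * X (ι.1, k) := by
  rw [T0, map_sum]
  refine sum_congr rfl fun σ _ => ?_
  rw [Fintype.prod_prod_type, map_prod]
  refine prod_congr rfl fun i _ => ?_
  rw [map_pow, trl_X]
  exact (Fin.prod_const n _).symm

theorem trl_main {N m n : ℕ} (F : Finset (Finset (Fin N)) → ℂ) (κ₀ : Fin N → Fin m)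
    (hκ : Bal n κ₀) (h0 : Phi F (trl_psi κ₀ (T0 m n)) = 0) : F (fibs κ₀) = 0 := by
  obtain ⟨β₁, hβ₁⟩ := trl_beta κ₀ hκ
  have hI : Fintype.card (Fin m × Fin n) = N := by
    rw [Fintype.card_congr β₁, Fintype.card_fin]
  rw [trl_T0, map_sum] at h0
  have h1 : ∀ σ : Equiv.Perm (Fin m), Phi F (∏ ι : Fin m × Fin n,
      ∑ k, C (if κ₀ k = σ ι.1 then (1 : ℂ) else 0) * X (ι.1, k)) =
      F (fibs κ₀) * ((∑ β : Fin m × Fin n ≃ Fin N, if (∀ ι, κ₀ (β ι) = σ ι.1) then 1 else 0 : ℕ) : ℂ) := by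
    intro σ
    rw [Phi_prod F hI (fun ι : Fin m × Fin n => ι.1)
      (fun ι k => if κ₀ k = σ ι.1 then (1 : ℂ) else 0)]
    rw [Nat.cast_sum, mul_sum]
    refine sum_congr rfl fun β _ => ?_
    by_cases hβ : ∀ ι, κ₀ (β ι) = σ ι.1
    · rw [if_pos hβ]
      congr 1
      · congr 1
        rw [← fibs_comp σ]
        congr 1
        funext x
        rw [← hβ, β.apply_symm_apply]
      · rw [Nat.cast_one]
        refine prod_eq_one fun ι _ => ?_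
        rw [if_pos (hβ ι)]
    · rw [if_neg hβ, Nat.cast_zero, mul_zero]
      obtain ⟨ι, hι⟩ := not_forall.1 hβ
      rw [prod_eq_zero (mem_univ ι) (if_neg hι), mul_zero]
  rw [sum_congr rfl fun σ _ => h1 σ, ← mul_sum, ← Nat.cast_sum] at h0
  rcases mul_eq_zero.1 h0 with h2 | h2
  · exact h2
  · exfalso
    rw [Nat.cast_eq_zero, sum_eq_zero_iff] at h2
    have h3 := h2 1 (mem_univ _)
    rw [sum_eq_zero_iff] at h3
    have h4 := h3 β₁ (mem_univ _)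
    have h5 : ∀ ι : Fin m × Fin n, κ₀ (β₁ ι) = (1 : Equiv.Perm (Fin m)) ι.1 := hβ₁
    rw [if_pos h5] at h4
    exact one_ne_zero h4

theorem trL {N m a c : ℕ} (hT : T0 m (a * c) ∈ Pa m m a ^ c) (β₀ : Fin m × Fin a × Fin c ≃ Fin N)
    (F : Finset (Finset (Fin N)) → ℂ)
    (h : ∀ ω : Fin c → Fin N → ℂ, ∑ g : Equiv.Perm (Fin N),
      F (fibs fun x => (β₀.symm (g.symm x)).1) * ∏ k, ω (β₀.symm (g.symm k)).2.2 k = 0)
    (κ₀ : Fin N → Fin m) (hκ : Bal (a * c) κ₀) : F (fibs κ₀) = 0 := by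
  apply trl_main F κ₀ hκ
  have h1 : T0 m (a * c) ∈ Submodule.span ℚ (Set.range fun w : Fin c → Fin m → ℚ =>
      ∏ l, nm m (w l) ^ a) := pow_range (fun w : Fin m → ℚ => nm m w ^ a) c hT
  refine Submodule.span_induction (p := fun x _ => Phi F (trl_psi κ₀ x) = 0) ?_ ?_ ?_ ?_ h1
  · rintro x ⟨w, rfl⟩
    exact trl_zero β₀ F h κ₀ w
  · rw [map_zero, map_zero]
  · intro x y _ _ hx hy
    rw [map_add, map_add, hx, hy, add_zero]
  · intro q x _ hx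
    have h2 : q • x = C q * x := by rw [smul_eq_C_mul]
    rw [h2, map_mul, trl_C, ← smul_eq_C_mul, map_smul, hx, smul_zero]

end Helper87.TA
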