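import Mathlib
import Pool.Agent.Helper87.TA.Defs
import Pool.Agent.Helper87.TA.St.TrL
import Pool.Agent.Helper87.TA.St.TrJ

/-!
# TA-TrA: `m` blocks of size `a c` embed into `m a` blocks of size `c`

Fix a bijection `β₀ : Fin m × Fin a × Fin c ≃ Fin N` (`N = m (a c)`), `i₀ = fst ∘ β₀⁻¹`, `P₀ = mkP i₀`, `l₀ x = (β₀⁻¹ x).2.2`,
`κ x = ((β₀⁻¹ x).1, (β₀⁻¹ x).2.1) : Fin m × Fin a`, `Q₀ = mkP κ` (blocks of size `c`).  `J = Jm P₀ Q₀` is equivariant; it is injective: let `J F = 0`.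
Extend `F` to all sets of sets by zero (`F'`).  For `π ∈ Perm (Fin m × Fin a)` let `h_π = β₀ ∘ (π × id) ∘ β₀⁻¹ ∈ Perm (Fin N)`; `l₀ ∘ h_π = l₀`, `κ ∘ h_π = π ∘ κ`.
(1) For every `g`: `∑_π F (g h_π P₀) = 0`.  Indeed `0 = (J F) (g Q₀) = ∑_{s : s Q₀ = Q₀} F (g s P₀)` (reindex by `g`).  Reindexing by `h_π` (`h_π Q₀ = Q₀` by
`fibs_comp`) `0 = ∑_{s ∈ Stab} F (g h_π s P₀)` for every `π`.  For `s ∈ Stab` there is `ρ` with `κ ∘ s⁻¹ = ρ⁻¹ ∘ κ` (`exists_perm`), and then `s P₀ = h_ρ P₀` (as `i₀` is a function of `κ`), so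
`∑_π F (g h_π s P₀) = ∑_π F (g h_π h_ρ P₀) = ∑_π F (g h_π P₀)`.  Summing over `π` and `s`: `|Stab| ∑_π F (g h_π P₀) = 0`, and `|Stab| ≥ 1`.
(2) `∑_g F (g P₀) ∏_k ω (l₀ (g⁻¹ k)) k = 0` for all `ω`: the factor is unchanged if `g` is replaced by `g h_π` (`l₀ ∘ h_π⁻¹ = l₀`); average over `π`
and use (1).
(3) `trL` (with `F'`; `F' (fibs (i₀ ∘ g⁻¹)) = F (g P₀)` by `fibs_perm`) gives `F' (fibs κ₀) = 0` for all balanced `κ₀`, so `F = 0` by `exists_lab`.
-/

set_option autoImplicit false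

open Finset

namespace Helper87.TA

open Helper87.TR

/-- the equivalence with the pairs (label in `Fin m × Fin a`, label in `Fin c`) -/
def tra_e {N m a c : ℕ} (β₀ : Fin m × Fin a × Fin c ≃ Fin N) : Fin N ≃ (Fin m × Fin a) × Fin c :=
  β₀.symm.trans (Equiv.prodAssoc (Fin m) (Fin a) (Fin c)).symm

lemma tra_e_1 {N m a c : ℕ} (β₀ : Fin m × Fin a × Fin c ≃ Fin N) (x : Fin N) :
    (tra_e β₀ x).1 = ((β₀.symm x).1, (β₀.symm x).2.1) := rfl

lemma tra_e_2 {N m a c : ℕ} (β₀ : Fin m × Fin a × Fin c ≃ Fin N) (x : Fin N) :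
    (tra_e β₀ x).2 = (β₀.symm x).2.2 := rfl

/-- the permutation `h_π` -/
def tra_h {N m a c : ℕ} (β₀ : Fin m × Fin a × Fin c ≃ Fin N) (π : Equiv.Perm (Fin m × Fin a)) :
    Equiv.Perm (Fin N) :=
  (tra_e β₀).trans ((Equiv.prodCongr π (Equiv.refl (Fin c))).trans (tra_e β₀).symm)

lemma tra_e_h {N m a c : ℕ} (β₀ : Fin m × Fin a × Fin c ≃ Fin N) (π : Equiv.Perm (Fin m × Fin a))
    (x : Fin N) : tra_e β₀ (tra_h β₀ π x) = (π (tra_e β₀ x).1, (tra_e β₀ x).2) := by
  simp [tra_h, Prod.map]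

lemma tra_e_h_symm {N m a c : ℕ} (β₀ : Fin m × Fin a × Fin c ≃ Fin N) (π : Equiv.Perm (Fin m × Fin a))
    (x : Fin N) : tra_e β₀ ((tra_h β₀ π).symm x) = (π.symm (tra_e β₀ x).1, (tra_e β₀ x).2) := by
  simp [tra_h, Prod.map]

lemma tra_h_mul {N m a c : ℕ} (β₀ : Fin m × Fin a × Fin c ≃ Fin N) (π ρ : Equiv.Perm (Fin m × Fin a)) :
    tra_h β₀ (π * ρ) = tra_h β₀ π * tra_h β₀ ρ := by
  refine Equiv.ext fun x => (tra_e β₀).injective ?_
  rw [Equiv.Perm.mul_apply, tra_e_h, tra_e_h, tra_e_h, Equiv.Perm.mul_apply]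

lemma tra_bal1 {N m a c : ℕ} (β₀ : Fin m × Fin a × Fin c ≃ Fin N) :
    Bal (a * c) fun x => (tra_e β₀ x).1.1 := by
  intro i
  have h : (univ.filter fun x : Fin N => (tra_e β₀ x).1.1 = i).card =
      (({i} : Finset (Fin m)) ×ˢ (univ : Finset (Fin a × Fin c))).card := by
    refine card_bij' (fun x _ => β₀.symm x) (fun y _ => β₀ y) ?_ ?_ ?_ ?_
    · intro x hx
      rw [mem_filter] at hx
      rw [mem_product, mem_singleton]
      exact ⟨hx.2, mem_univ _⟩
    · intro y hy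
      rw [mem_product, mem_singleton] at hy
      rw [mem_filter, tra_e_1, Equiv.symm_apply_apply]
      exact ⟨mem_univ _, hy.1⟩
    · intro x _
      simp
    · intro x _
      simp
  rw [h, card_product]
  simp

lemma tra_bal2 {N m a c : ℕ} (β₀ : Fin m × Fin a × Fin c ≃ Fin N) :
    Bal c fun x => (tra_e β₀ x).1 := by
  intro i
  have h : (univ.filter fun x : Fin N => (tra_e β₀ x).1 = i).card =
      (({i} : Finset (Fin m × Fin a)) ×ˢ (univ : Finset (Fin c))).card := by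
    refine card_bij' (fun x _ => tra_e β₀ x) (fun y _ => (tra_e β₀).symm y) ?_ ?_ ?_ ?_
    · intro x hx
      rw [mem_filter] at hx
      rw [mem_product, mem_singleton]
      exact ⟨hx.2, mem_univ _⟩
    · intro y hy
      rw [mem_product, mem_singleton] at hy
      rw [mem_filter, Equiv.apply_symm_apply]
      exact ⟨mem_univ _, hy.1⟩
    · intro x _
      simp
    · intro x _
      simp
  rw [h, card_product]
  simp

theorem permLe_A (m a c : ℕ) (hm : 1 ≤ m) (ha : 1 ≤ a) (hc : 1 ≤ c)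
    (hT : T0 m (a * c) ∈ Pa m m a ^ c) : PermLe (m * (a * c)) m (a * c) (m * a) c := by
  have hcard : Fintype.card (Fin m × Fin a × Fin c) = Fintype.card (Fin (m * (a * c))) := by
    simp
  let β₀ : Fin m × Fin a × Fin c ≃ Fin (m * (a * c)) := Fintype.equivOfCardEq hcard
  have hac : 1 ≤ a * c := Nat.mul_pos ha hc
  let P₀ : SetPart (m * (a * c)) m (a * c) :=
    mkP hac (Fintype.card_fin m) (fun x => (tra_e β₀ x).1.1) (tra_bal1 β₀)
  have hι : Fintype.card (Fin m × Fin a) = m * a := by simp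
  let Q₀ : SetPart (m * (a * c)) (m * a) c :=
    mkP hc hι (fun x => (tra_e β₀ x).1) (tra_bal2 β₀)
  refine ⟨Jm P₀ Q₀, ?_, fun g F => Jm_act P₀ Q₀ g F⟩
  rw [injective_iff_map_eq_zero]
  intro F hF
  -- values of translates
  have hP : ∀ g : Equiv.Perm (Fin (m * (a * c))),
      (g • P₀).1 = fibs fun x => (tra_e β₀ (g.symm x)).1.1 := fun g => fibs_perm g _
  have hQ : ∀ g : Equiv.Perm (Fin (m * (a * c))),
      (g • Q₀).1 = fibs fun x => (tra_e β₀ (g.symm x)).1 := fun g => fibs_perm g _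
  -- the stabilizer of Q₀
  have hst : ∀ s : Equiv.Perm (Fin (m * (a * c))), s • Q₀ = Q₀ →
      ∃ ρ : Equiv.Perm (Fin m × Fin a), s • P₀ = tra_h β₀ ρ • P₀ := by
    intro s hs
    have h1 : fibs (fun x => (tra_e β₀ x).1) = fibs fun x => (tra_e β₀ (s.symm x)).1 := by
      rw [← hQ s, hs]
      rfl
    have hb : Bal c fun x => (tra_e β₀ (s.symm x)).1 := by
      intro i
      refine Eq.trans ?_ (tra_bal2 β₀ i)
      refine card_bij' (fun x _ => s.symm x) (fun x _ => s x) ?_ ?_ ?_ ?_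
      · intro x hx
        simpa using hx
      · intro x hx
        simpa using hx
      · intro x _
        simp
      · intro x _
        simp
    obtain ⟨ρ, hρ⟩ := exists_perm hc _ _ (tra_bal2 β₀) hb h1
    refine ⟨ρ.symm, Subtype.ext ?_⟩
    rw [hP, hP]
    congr 1
    funext x
    rw [tra_e_h_symm, hρ x]
    rfl
  -- step 1
  have h1 : ∀ g : Equiv.Perm (Fin (m * (a * c))),
      ∑ π : Equiv.Perm (Fin m × Fin a), F ((g * tra_h β₀ π) • P₀) = 0 := by
    intro g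
    have h2 : ∀ g : Equiv.Perm (Fin (m * (a * c))),
        ∑ s : Equiv.Perm (Fin (m * (a * c))), (if s • Q₀ = Q₀ then F ((g * s) • P₀) else 0) = 0 := by
      intro g
      have h3 : Jm P₀ Q₀ F (g • Q₀) = 0 := by rw [hF]; rfl
      refine Eq.trans ?_ h3
      change _ = ∑ s : Equiv.Perm (Fin (m * (a * c))), if s • Q₀ = g • Q₀ then F (s • P₀) else 0
      refine Fintype.sum_equiv (Equiv.mulLeft g) _ _ fun s => ?_
      rw [Equiv.coe_mulLeft, mul_smul g s Q₀]
      by_cases h4 : s • Q₀ = Q₀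
      · rw [if_pos h4, if_pos (by rw [h4])]
      · rw [if_neg h4, if_neg fun h5 => h4 (smul_left_cancel g h5)]
    have h3 : ∑ s : Equiv.Perm (Fin (m * (a * c))), (if s • Q₀ = Q₀ then
        ∑ π : Equiv.Perm (Fin m × Fin a), F ((g * tra_h β₀ π) • P₀) else 0) = 0 := by
      have h4 : ∑ π : Equiv.Perm (Fin m × Fin a), ∑ s : Equiv.Perm (Fin (m * (a * c))),
          (if s • Q₀ = Q₀ then F ((g * tra_h β₀ π * s) • P₀) else 0) = 0 :=
        sum_eq_zero fun π _ => h2 _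
      rw [sum_comm] at h4
      refine Eq.trans ?_ h4
      refine sum_congr rfl fun s _ => ?_
      by_cases h5 : s • Q₀ = Q₀
      · simp only [if_pos h5]
        obtain ⟨ρ, hρ⟩ := hst s h5
        symm
        refine Fintype.sum_equiv (Equiv.mulRight ρ) _ _ fun π => ?_
        rw [Equiv.coe_mulRight, tra_h_mul, mul_smul (g * tra_h β₀ π) s P₀, hρ, ← mul_smul, mul_assoc]
      · simp only [if_neg h5, sum_const_zero]
    rw [← sum_filter, sum_const, nsmul_eq_mul, mul_eq_zero] at h3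
    rcases h3 with h3 | h3
    · exfalso
      rw [Nat.cast_eq_zero, card_eq_zero] at h3
      have h4 : (1 : Equiv.Perm (Fin (m * (a * c)))) ∈
          univ.filter fun s : Equiv.Perm (Fin (m * (a * c))) => s • Q₀ = Q₀ := by
        rw [mem_filter]
        exact ⟨mem_univ _, one_smul _ _⟩
      rw [h3] at h4
      exact absurd h4 (notMem_empty _)
    · exact h3
  -- step 2
  have h2 : ∀ ω : Fin c → Fin (m * (a * c)) → ℂ, ∑ g : Equiv.Perm (Fin (m * (a * c))),
      F (g • P₀) * ∏ k, ω (tra_e β₀ (g.symm k)).2 k = 0 := by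
    intro ω
    have h3 : ∀ π : Equiv.Perm (Fin m × Fin a), ∑ g : Equiv.Perm (Fin (m * (a * c))),
        F (g • P₀) * ∏ k, ω (tra_e β₀ (g.symm k)).2 k =
        ∑ g : Equiv.Perm (Fin (m * (a * c))),
        F ((g * tra_h β₀ π) • P₀) * ∏ k, ω (tra_e β₀ (g.symm k)).2 k := by
      intro π
      symm
      refine Fintype.sum_equiv (Equiv.mulRight (tra_h β₀ π)) _ _ fun g => ?_
      rw [Equiv.coe_mulRight]
      congr 1
      refine prod_congr rfl fun k _ => ?_
      have h4 : (g * tra_h β₀ π).symm k = (tra_h β₀ π).symm (g.symm k) := rfl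
      rw [h4, tra_e_h_symm]
    have h4 : ∑ π : Equiv.Perm (Fin m × Fin a), ∑ g : Equiv.Perm (Fin (m * (a * c))),
        F ((g * tra_h β₀ π) • P₀) * ∏ k, ω (tra_e β₀ (g.symm k)).2 k = 0 := by
      rw [sum_comm]
      refine sum_eq_zero fun g _ => ?_
      rw [← sum_mul, h1 g, zero_mul]
    rw [← sum_congr rfl fun π _ => h3 π, sum_const, nsmul_eq_mul, mul_eq_zero] at h4
    rcases h4 with h4 | h4
    · exfalso
      rw [Nat.cast_eq_zero, card_eq_zero] at h4
      have h5 : (1 : Equiv.Perm (Fin m × Fin a)) ∈ (univ : Finset (Equiv.Perm (Fin m × Fin a))) :=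
        mem_univ _
      rw [h4] at h5
      exact absurd h5 (notMem_empty _)
    · exact h4
  -- step 3
  classical
  let F' : Finset (Finset (Fin (m * (a * c)))) → ℂ := fun P =>
    if h : P.card = m ∧ (∀ B ∈ P, B.card = a * c) ∧ ∀ x, ∃! B, B ∈ P ∧ x ∈ B then F ⟨P, h⟩ else 0
  have hF' : ∀ P : SetPart (m * (a * c)) m (a * c), F' P.1 = F P := by
    intro P
    have h3 : F' P.1 = F ⟨P.1, P.2⟩ := dif_pos P.2
    rw [h3]
  have h3 := fun κ₀ hκ => trL hT β₀ F' (fun ω => by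
    refine Eq.trans ?_ (h2 ω)
    refine sum_congr rfl fun g _ => ?_
    rw [← hF' (g • P₀), hP g]
    rfl) κ₀ hκ
  funext P
  obtain ⟨κ, hκ, hPκ⟩ := exists_lab P
  rw [← hF' P, hPκ, h3 κ hκ]
  rfl

end Helper87.TA
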