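import Mathlib
import Pool.Agent.Helper87.TA.Defs
import Pool.Agent.Helper87.TA.St.TrL
import Pool.Agent.Helper87.TA.St.TrJ

/-!
# TA-TrB: `m` blocks of size `a c` embed into `c` blocks of size `m a`

Fix a bijection `β₀ : Fin m × Fin a × Fin c ≃ Fin N` (`N = m (a c)`), `i₀ = fst ∘ β₀⁻¹`, `P₀ = mkP i₀`, `l₀ x = (β₀⁻¹ x).2.2`, `Q₀ = mkP l₀`
(blocks of size `m a`).  `J = Jm P₀ Q₀` is equivariant; it is injective: let `J F = 0`.  For `ρ ∈ Perm (Fin c)` let `h_ρ = β₀ ∘ (id × id × ρ) ∘ β₀⁻¹`;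
`h_ρ P₀ = P₀` and `l₀ ∘ h_ρ⁻¹ = ρ⁻¹ ∘ l₀`.  For `ω : Fin c → Fin N → ℂ` put `W g = ∏_k ω (l₀ (g⁻¹ k)) k` and `V g = ∑_ρ W (g h_ρ) = ∑_ρ ∏_k ω (ρ⁻¹ (l₀ (g⁻¹ k))) k`.
* `c! ∑_g F (g P₀) W g = ∑_g F (g P₀) V g` (replace `g` by `g h_ρ`).
* `V g` depends only on `g Q₀`: if `g Q₀ = g' Q₀` then `fibs (l₀ ∘ g⁻¹) = fibs (l₀ ∘ g'⁻¹)` (`fibs_perm`), so `l₀ ∘ g'⁻¹ = τ ∘ l₀ ∘ g⁻¹` (`exists_perm`); reindex the sum over `ρ`.
* So `∑_g F (g P₀) V g = ∑_Q V(Q) (J F) Q = 0`.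
`trL` (with the extension `F'` of `F` by zero; `F' (fibs (i₀ ∘ g⁻¹)) = F (g P₀)` by `fibs_perm`) gives `F' (fibs κ₀) = 0` for all balanced `κ₀`, so
`F = 0` by `exists_lab`.
-/

set_option autoImplicit false

open Finset

namespace Helper87.TA

open Helper87.TR

lemma trb_bal {N s : ℕ} {ι : Type*} [Fintype ι] [DecidableEq ι] {κ : Fin N → ι} (hκ : Bal s κ)
    (g : Equiv.Perm (Fin N)) : Bal s fun x => κ (g.symm x) := by
  intro i
  rw [← hκ i]
  refine card_bij' (fun x _ => g.symm x) (fun x _ => g x) ?_ ?_ ?_ ?_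
  · intro x hx
    simpa using hx
  · intro x hx
    simpa using hx
  · intro x _
    simp
  · intro x _
    simp

lemma trb_bal1 {N m a c : ℕ} (β₀ : Fin m × Fin a × Fin c ≃ Fin N) :
    Bal (a * c) fun x => (β₀.symm x).1 := by
  intro i
  have h : (univ.filter fun x : Fin N => (β₀.symm x).1 = i).card =
      (({i} : Finset (Fin m)) ×ˢ (univ : Finset (Fin a × Fin c))).card := by
    refine card_bij' (fun x _ => β₀.symm x) (fun y _ => β₀ y) ?_ ?_ ?_ ?_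
    · intro x hx
      rw [mem_filter] at hx
      rw [mem_product, mem_singleton]
      exact ⟨hx.2, mem_univ _⟩
    · intro y hy
      rw [mem_product, mem_singleton] at hy
      rw [mem_filter, Equiv.symm_apply_apply]
      exact ⟨mem_univ _, hy.1⟩
    · intro x _
      simp
    · intro x _
      simp
  rw [h, card_product]
  simp

lemma trb_bal2 {N m a c : ℕ} (β₀ : Fin m × Fin a × Fin c ≃ Fin N) :
    Bal (m * a) fun x => (β₀.symm x).2.2 := by
  intro l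
  have h : (univ.filter fun x : Fin N => (β₀.symm x).2.2 = l).card =
      ((univ : Finset (Fin m)) ×ˢ ((univ : Finset (Fin a)) ×ˢ ({l} : Finset (Fin c)))).card := by
    refine card_bij' (fun x _ => β₀.symm x) (fun y _ => β₀ y) ?_ ?_ ?_ ?_
    · intro x hx
      rw [mem_filter] at hx
      rw [mem_product, mem_product, mem_singleton]
      exact ⟨mem_univ _, mem_univ _, hx.2⟩
    · intro y hy
      rw [mem_product, mem_product, mem_singleton] at hy
      rw [mem_filter, Equiv.symm_apply_apply]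
      exact ⟨mem_univ _, hy.2.2⟩
    · intro x _
      simp
    · intro x _
      simp
  rw [h, card_product, card_product]
  simp

/-- the permutation given by a permutation of the last coordinate -/
def trb_h {N m a c : ℕ} (β₀ : Fin m × Fin a × Fin c ≃ Fin N) (ρ : Equiv.Perm (Fin c)) :
    Equiv.Perm (Fin N) :=
  (β₀.symm.trans ((Equiv.refl (Fin m)).prodCongr ((Equiv.refl (Fin a)).prodCongr ρ))).trans β₀

lemma trb_h1 {N m a c : ℕ} (β₀ : Fin m × Fin a × Fin c ≃ Fin N) (ρ : Equiv.Perm (Fin c))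
    (x : Fin N) : (β₀.symm ((trb_h β₀ ρ).symm x)).1 = (β₀.symm x).1 := by
  simp [trb_h]

lemma trb_h2 {N m a c : ℕ} (β₀ : Fin m × Fin a × Fin c ≃ Fin N) (ρ : Equiv.Perm (Fin c))
    (x : Fin N) : (β₀.symm ((trb_h β₀ ρ).symm x)).2.2 = ρ.symm (β₀.symm x).2.2 := by
  simp [trb_h]

/-- the symmetrized weight -/
noncomputable def trb_V {N m a c : ℕ} (β₀ : Fin m × Fin a × Fin c ≃ Fin N) (ω : Fin c → Fin N → ℂ)
    (g : Equiv.Perm (Fin N)) : ℂ :=
  ∑ ρ : Equiv.Perm (Fin c), ∏ k, ω (ρ.symm (β₀.symm (g.symm k)).2.2) k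

lemma trb_V_congr {N m a c : ℕ} (hs : 1 ≤ m * a) (β₀ : Fin m × Fin a × Fin c ≃ Fin N)
    (ω : Fin c → Fin N → ℂ) (g g' : Equiv.Perm (Fin N))
    (h : imP g (fibs fun x => (β₀.symm x).2.2) = imP g' (fibs fun x => (β₀.symm x).2.2)) :
    trb_V β₀ ω g = trb_V β₀ ω g' := by
  rw [fibs_perm, fibs_perm] at h
  obtain ⟨τ, hτ⟩ := exists_perm hs _ _ (trb_bal (trb_bal2 β₀) g) (trb_bal (trb_bal2 β₀) g') h
  symm
  rw [trb_V, trb_V, ← Equiv.sum_comp (Equiv.mulLeft τ)]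
  refine sum_congr rfl fun ρ _ => ?_
  refine prod_congr rfl fun k _ => ?_
  rw [hτ k, Equiv.coe_mulLeft]
  congr 1
  change (τ * ρ)⁻¹ _ = ρ⁻¹ _
  rw [mul_inv_rev]
  simp

theorem permLe_B (m a c : ℕ) (hm : 1 ≤ m) (ha : 1 ≤ a) (hc : 1 ≤ c)
    (hT : T0 m (a * c) ∈ Pa m m a ^ c) : PermLe (m * (a * c)) m (a * c) c (m * a) := by
  classical
  have hs1 : 1 ≤ a * c := Nat.mul_pos ha hc
  have hs2 : 1 ≤ m * a := Nat.mul_pos hm ha
  obtain ⟨β₀⟩ : Nonempty (Fin m × Fin a × Fin c ≃ Fin (m * (a * c))) :=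
    ⟨Fintype.equivFinOfCardEq (by simp)⟩
  set P₀ : SetPart (m * (a * c)) m (a * c) :=
    mkP hs1 (Fintype.card_fin m) (fun x => (β₀.symm x).1) (trb_bal1 β₀) with hP₀
  set Q₀ : SetPart (m * (a * c)) c (m * a) :=
    mkP hs2 (Fintype.card_fin c) (fun x => (β₀.symm x).2.2) (trb_bal2 β₀) with hQ₀
  refine ⟨Jm P₀ Q₀, ?_, Jm_act P₀ Q₀⟩
  rw [injective_iff_map_eq_zero]
  intro F hF
  have hF' : ∀ Q, ∑ g : Equiv.Perm (Fin (m * (a * c))),
      (if g • Q₀ = Q then F (g • P₀) else 0) = 0 := fun Q => congrFun hF Q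
  -- the extension by zero
  obtain ⟨F', hF1⟩ : ∃ F' : Finset (Finset (Fin (m * (a * c)))) → ℂ,
      ∀ P : SetPart (m * (a * c)) m (a * c), F' P.1 = F P := by
    refine ⟨fun S => if h : S.card = m ∧ (∀ B ∈ S, B.card = a * c) ∧ ∀ x, ∃! B, B ∈ S ∧ x ∈ B
      then F ⟨S, h⟩ else 0, fun P => ?_⟩
    simp only
    rw [dif_pos P.2]
  have hP1 : ∀ g : Equiv.Perm (Fin (m * (a * c))),
      F' (fibs fun x => (β₀.symm (g.symm x)).1) = F (g • P₀) := by
    intro g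
    rw [← hF1 (g • P₀)]
    congr 1
    exact (fibs_perm g fun x => (β₀.symm x).1).symm
  have hfix : ∀ ρ : Equiv.Perm (Fin c), trb_h β₀ ρ • P₀ = P₀ := by
    intro ρ
    apply Subtype.ext
    change imP (trb_h β₀ ρ) (fibs fun x => (β₀.symm x).1) = fibs fun x => (β₀.symm x).1
    rw [fibs_perm]
    congr 1
    funext x
    exact trb_h1 β₀ ρ x
  have key : ∀ ω : Fin c → Fin (m * (a * c)) → ℂ, ∑ g : Equiv.Perm (Fin (m * (a * c))),
      F' (fibs fun x => (β₀.symm (g.symm x)).1) * ∏ k, ω (β₀.symm (g.symm k)).2.2 k = 0 := by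
    intro ω
    have h1 : ∀ ρ : Equiv.Perm (Fin c), ∑ g : Equiv.Perm (Fin (m * (a * c))),
        F' (fibs fun x => (β₀.symm (g.symm x)).1) * ∏ k, ω (β₀.symm (g.symm k)).2.2 k =
        ∑ g : Equiv.Perm (Fin (m * (a * c))),
          F (g • P₀) * ∏ k, ω (ρ.symm (β₀.symm (g.symm k)).2.2) k := by
      intro ρ
      rw [← Equiv.sum_comp (Equiv.mulRight (trb_h β₀ ρ))]
      refine sum_congr rfl fun g _ => ?_
      rw [hP1, Equiv.coe_mulRight, mul_smul, hfix]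
      congr 1
      refine prod_congr rfl fun k _ => ?_
      have h2 : (g * trb_h β₀ ρ).symm k = (trb_h β₀ ρ).symm (g.symm k) := rfl
      rw [h2, trb_h2]
    have h2 : (Fintype.card (Equiv.Perm (Fin c)) : ℂ) * ∑ g : Equiv.Perm (Fin (m * (a * c))),
        F' (fibs fun x => (β₀.symm (g.symm x)).1) * ∏ k, ω (β₀.symm (g.symm k)).2.2 k =
        ∑ g : Equiv.Perm (Fin (m * (a * c))), F (g • P₀) * trb_V β₀ ω g := by
      rw [← nsmul_eq_mul, ← card_univ, ← sum_const, sum_congr rfl fun ρ _ => h1 ρ, sum_comm]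
      refine sum_congr rfl fun g _ => ?_
      rw [trb_V, mul_sum]
    obtain ⟨v, hv⟩ : ∃ v : SetPart (m * (a * c)) c (m * a) → ℂ,
        ∀ g : Equiv.Perm (Fin (m * (a * c))), trb_V β₀ ω g = v (g • Q₀) := by
      refine ⟨fun Q => if h : ∃ g : Equiv.Perm (Fin (m * (a * c))), g • Q₀ = Q
        then trb_V β₀ ω h.choose else 0, fun g => ?_⟩
      have h : ∃ g' : Equiv.Perm (Fin (m * (a * c))), g' • Q₀ = g • Q₀ := ⟨g, rfl⟩
      simp only
      rw [dif_pos h]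
      exact trb_V_congr hs2 β₀ ω _ _ (congrArg Subtype.val h.choose_spec.symm)
    have h3 : ∑ g : Equiv.Perm (Fin (m * (a * c))), F (g • P₀) * trb_V β₀ ω g = 0 := by
      have h4 : ∀ g : Equiv.Perm (Fin (m * (a * c))), F (g • P₀) * trb_V β₀ ω g =
          ∑ Q : SetPart (m * (a * c)) c (m * a), (if g • Q₀ = Q then F (g • P₀) else 0) * v Q := by
        intro g
        rw [sum_eq_single (g • Q₀)]
        · rw [if_pos rfl, hv]
        · intro Q _ hQ
          rw [if_neg (Ne.symm hQ), zero_mul]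
        · intro h
          exact absurd (mem_univ _) h
      rw [sum_congr rfl fun g _ => h4 g, sum_comm]
      refine sum_eq_zero fun Q _ => ?_
      rw [← sum_mul, hF' Q, zero_mul]
    rw [h3] at h2
    refine (mul_eq_zero.1 h2).resolve_left ?_
    exact_mod_cast Fintype.card_ne_zero
  funext P
  obtain ⟨κ, hκ, hP⟩ := exists_lab P
  rw [← hF1 P, hP]
  exact trL hT β₀ F' key κ hκ

end Helper87.TA
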